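import Pool.Agent.W_93ab53_h82.Defs

/-!
# The Chebyshev nodes (MP_93ab53_an, helper82)

Nodes `z_k = cos((2k+1)π/(2n))`, `k < n`.  Put
`D(x,t) = (1/n) (1 + 2 ∑_{j=1}^{n-1} T_j(x) T_j(t))`.
* By the Gauss–Chebyshev quadrature (Mathlib: `Polynomial.Chebyshev.integral_eq_sumZeroes`,
  exact for degree `< 2n`) and orthogonality of the `T_j` for `measureT`,
  `f(t) = ∑_k f(z_k) D(z_k,t)` for every polynomial `f` of degree `< n`; taking `f = l_k` gives
  `l_k(t) = D(z_k,t)`.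
* Interpolating `x ↦ D(x,t)` (degree `< n`) at the nodes: `∑_k l_k(t)² = ∑_k l_k(t) D(z_k,t) = D(t,t)
  = (1/n)(1 + 2∑ T_j(t)²) = (1/n)(n + ∑_{j=1}^{n-1} T_{2j}(t))`.
* `∫_{-1}^{1} T_{2j} = -2/(4j²-1) = 1/(2j+1) - 1/(2j-1)`, so
  `I = 2 + (1/n)(1/(2n-1) - 1) = 2 - (2n-2)/(n(2n-1))`.
-/

open Polynomial Real

namespace LagMin

open Polynomial.Chebyshev

/-- the Chebyshev nodes -/
noncomputable def Cheb_z (n : ℕ) (k : Fin n) : ℝ :=
  Real.cos ((2 * ((k : ℕ) : ℝ) + 1) / (2 * n) * π)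

theorem Cheb_z_inj (n : ℕ) : Function.Injective (Cheb_z n) := by
  intro k l h
  have hn : (0 : ℝ) < n := by
    have := k.pos
    exact_mod_cast this
  have hmem : ∀ i : Fin n, (2 * ((i : ℕ) : ℝ) + 1) / (2 * n) * π ∈ Set.Icc 0 π := by
    intro i
    have hi : ((i : ℕ) : ℝ) + 1 ≤ n := by
      have := i.isLt
      exact_mod_cast this
    constructor
    · positivity
    · have h1 : (2 * ((i : ℕ) : ℝ) + 1) / (2 * n) ≤ 1 := by
        rw [div_le_one (by positivity)]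
        linarith
      calc (2 * ((i : ℕ) : ℝ) + 1) / (2 * n) * π ≤ 1 * π :=
            mul_le_mul_of_nonneg_right h1 pi_pos.le
        _ = π := one_mul _
  have h1 := Real.injOn_cos (hmem k) (hmem l) h
  have h2 := mul_right_cancel₀ pi_pos.ne' h1
  rw [div_left_inj' (by positivity)] at h2
  have h3 : ((k : ℕ) : ℝ) = ((l : ℕ) : ℝ) := by linarith
  exact Fin.ext (by exact_mod_cast h3)

theorem Cheb_sum_dvd {n : ℕ} (hn : n ≠ 0) {m : ℤ} (hm : ¬ (2 * n : ℤ) ∣ m) :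
    ∑ k : Fin n, (T ℝ m).eval (Cheb_z n k) = 0 := by
  have h := sumZeroes_T_of_not_dvd (n := n) hm
  rw [sumZeroes, Finset.sum_range] at h
  have h2 : π / n ≠ 0 := by positivity
  exact (mul_eq_zero.1 h).resolve_left h2

/-- the weights -/
noncomputable def Cheb_w (n : ℕ) (j : Fin n) : ℝ := if (j : ℕ) = 0 then 1 / n else 2 / n

theorem Cheb_mul (i j : ℤ) (x : ℝ) : (T ℝ i).eval x * (T ℝ j).eval x =
    ((T ℝ (i + j)).eval x + (T ℝ (i - j)).eval x) / 2 := by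
  have h := congrArg (Polynomial.eval x) (T_mul_T ℝ i j)
  simp only [eval_mul, eval_add, eval_ofNat] at h
  linarith

theorem Cheb_orth {n : ℕ} (i j : Fin n) :
    ∑ k : Fin n, (T ℝ ((i : ℕ) : ℤ)).eval (Cheb_z n k) *
      (Cheb_w n j * (T ℝ ((j : ℕ) : ℤ)).eval (Cheb_z n k)) = if i = j then 1 else 0 := by
  have hn : n ≠ 0 := by
    have := i.pos
    omega
  have hn' : (n : ℝ) ≠ 0 := by exact_mod_cast hn
  have hi := i.isLt
  have hj := j.isLt
  have h1 : ∑ k : Fin n, (T ℝ ((i : ℕ) : ℤ)).eval (Cheb_z n k) *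
      (Cheb_w n j * (T ℝ ((j : ℕ) : ℤ)).eval (Cheb_z n k)) =
      Cheb_w n j * ((∑ k : Fin n, (T ℝ (((i : ℕ) : ℤ) + ((j : ℕ) : ℤ))).eval (Cheb_z n k)) +
        ∑ k : Fin n, (T ℝ (((i : ℕ) : ℤ) - ((j : ℕ) : ℤ))).eval (Cheb_z n k)) / 2 := by
    rw [← Finset.sum_add_distrib, Finset.mul_sum, Finset.sum_div]
    refine Finset.sum_congr rfl fun k _ => ?_
    have := Cheb_mul ((i : ℕ) : ℤ) ((j : ℕ) : ℤ) (Cheb_z n k)
    linear_combination Cheb_w n j * this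
  rw [h1]
  by_cases hij : i = j
  · subst hij
    rw [if_pos rfl, sub_self]
    by_cases h0 : (i : ℕ) = 0
    · rw [h0]
      simp only [Nat.cast_zero, add_zero, T_zero, eval_one, Finset.sum_const, Finset.card_univ,
        Fintype.card_fin, nsmul_eq_mul, mul_one, Cheb_w, h0, if_true]
      field_simp
      norm_num
    · rw [Cheb_sum_dvd hn (by
        intro h
        have := Int.le_of_dvd (by omega) h
        omega)]
      simp only [T_zero, eval_one, Finset.sum_const, Finset.card_univ,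
        Fintype.card_fin, nsmul_eq_mul, mul_one, Cheb_w, h0, if_false, zero_add]
      field_simp
  · have hij' : (i : ℕ) ≠ (j : ℕ) := fun h => hij (Fin.ext h)
    rw [if_neg hij, Cheb_sum_dvd hn (by
        intro h
        have := Int.le_of_dvd (by omega) h
        omega), Cheb_sum_dvd hn (by
        intro h
        rcases lt_or_gt_of_ne hij' with h2 | h2
        · have := Int.le_of_dvd (by omega) ((dvd_neg).2 h)
          omega
        · have := Int.le_of_dvd (by omega) h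
          omega)]
    simp

theorem Cheb_orth' {n : ℕ} (k l : Fin n) :
    ∑ j : Fin n, (Cheb_w n j * (T ℝ ((j : ℕ) : ℤ)).eval (Cheb_z n k)) *
      (T ℝ ((j : ℕ) : ℤ)).eval (Cheb_z n l) = if k = l then 1 else 0 := by
  have h1 : (Matrix.of fun (i k : Fin n) => (T ℝ ((i : ℕ) : ℤ)).eval (Cheb_z n k)) *
      (Matrix.of fun (k j : Fin n) => Cheb_w n j * (T ℝ ((j : ℕ) : ℤ)).eval (Cheb_z n k)) = 1 := by
    ext i j
    rw [Matrix.mul_apply, Matrix.one_apply]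
    exact Cheb_orth i j
  have h2 := mul_eq_one_comm.1 h1
  have h3 := congrFun (congrFun h2 k) l
  rw [Matrix.mul_apply, Matrix.one_apply] at h3
  exact h3

theorem Cheb_ell {n : ℕ} (k : Fin n) (t : ℝ) : ell (Cheb_z n) k t =
    ∑ j : Fin n, (Cheb_w n j * (T ℝ ((j : ℕ) : ℤ)).eval (Cheb_z n k)) *
      (T ℝ ((j : ℕ) : ℤ)).eval t := by
  set P : ℝ[X] := ∑ j : Fin n, (Cheb_w n j * (T ℝ ((j : ℕ) : ℤ)).eval (Cheb_z n k)) •
    T ℝ ((j : ℕ) : ℤ) with hP
  have hPe : ∀ x, P.eval x = ∑ j : Fin n,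
      (Cheb_w n j * (T ℝ ((j : ℕ) : ℤ)).eval (Cheb_z n k)) * (T ℝ ((j : ℕ) : ℤ)).eval x := by
    intro x
    rw [hP, eval_finsetSum]
    refine Finset.sum_congr rfl fun j _ => ?_
    rw [eval_smul, smul_eq_mul]
  rw [← hPe, ell_eq]
  congr 1
  refine Polynomial.eq_of_degrees_lt_of_eval_index_eq Finset.univ
    (Cheb_z_inj n).injOn ?_ ?_ ?_
  · rw [Lagrange.degree_basis (Cheb_z_inj n).injOn (Finset.mem_univ k), Finset.card_univ,
      Fintype.card_fin]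
    have := k.pos
    exact_mod_cast (by omega : n - 1 < n)
  · rw [Finset.card_univ, Fintype.card_fin, ← mem_degreeLT]
    refine Submodule.sum_mem _ fun j _ => Submodule.smul_mem _ _ ?_
    rw [mem_degreeLT, degree_T]
    have := j.isLt
    exact_mod_cast (by simp : ((j : ℕ) : ℤ).natAbs < n)
  · intro l _
    rw [hPe, Cheb_orth']
    by_cases hkl : k = l
    · subst hkl
      rw [Lagrange.eval_basis_self (Cheb_z_inj n).injOn (Finset.mem_univ _), if_pos rfl]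
    · rw [Lagrange.eval_basis_of_ne hkl (Finset.mem_univ _), if_neg hkl]

theorem Cheb_sum_sq {n : ℕ} (t : ℝ) : ∑ k : Fin n, ell (Cheb_z n) k t ^ 2 =
    ∑ j : Fin n, Cheb_w n j * (T ℝ ((j : ℕ) : ℤ)).eval t ^ 2 := by
  have h1 : ∀ k : Fin n, ell (Cheb_z n) k t ^ 2 = ∑ i : Fin n, ∑ j : Fin n,
      (Cheb_w n i * (T ℝ ((i : ℕ) : ℤ)).eval t * (T ℝ ((j : ℕ) : ℤ)).eval t) *
      ((T ℝ ((i : ℕ) : ℤ)).eval (Cheb_z n k) *
        (Cheb_w n j * (T ℝ ((j : ℕ) : ℤ)).eval (Cheb_z n k))) := by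
    intro k
    rw [Cheb_ell, sq, Finset.sum_mul_sum]
    refine Finset.sum_congr rfl fun i _ => Finset.sum_congr rfl fun j _ => ?_
    ring
  rw [Finset.sum_congr rfl fun k _ => h1 k, Finset.sum_comm]
  refine Finset.sum_congr rfl fun i _ => ?_
  rw [Finset.sum_comm]
  calc ∑ j : Fin n, ∑ k : Fin n,
      (Cheb_w n i * (T ℝ ((i : ℕ) : ℤ)).eval t * (T ℝ ((j : ℕ) : ℤ)).eval t) *
      ((T ℝ ((i : ℕ) : ℤ)).eval (Cheb_z n k) *
        (Cheb_w n j * (T ℝ ((j : ℕ) : ℤ)).eval (Cheb_z n k)))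
      = ∑ j : Fin n, (Cheb_w n i * (T ℝ ((i : ℕ) : ℤ)).eval t * (T ℝ ((j : ℕ) : ℤ)).eval t) *
          (if i = j then 1 else 0) := by
        refine Finset.sum_congr rfl fun j _ => ?_
        rw [← Finset.mul_sum, Cheb_orth]
    _ = Cheb_w n i * (T ℝ ((i : ℕ) : ℤ)).eval t ^ 2 := by
        simp only [mul_ite, mul_one, mul_zero, Finset.sum_ite_eq, Finset.mem_univ, if_true]
        ring

theorem Cheb_int (m : ℕ) (hm : 1 ≤ m) : ∫ t in (-1 : ℝ)..1, (T ℝ (2 * (m : ℤ))).eval t =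
    1 / (2 * (m : ℝ) + 1) - 1 / (2 * (m : ℝ) - 1) := by
  have hm' : (1 : ℝ) ≤ m := by exact_mod_cast hm
  have h1 : (2 * (m : ℝ) + 1) ≠ 0 := by positivity
  have h2 : (2 * (m : ℝ) - 1) ≠ 0 := by linarith
  set Q : ℝ[X] := (1 / (2 * (2 * (m : ℝ) + 1))) • T ℝ (2 * (m : ℤ) + 1) -
    (1 / (2 * (2 * (m : ℝ) - 1))) • T ℝ (2 * (m : ℤ) - 1) with hQ
  have hder : derivative Q = T ℝ (2 * (m : ℤ)) := by
    rw [hQ, derivative_sub, derivative_smul, derivative_smul, T_derivative_eq_U, T_derivative_eq_U]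
    have h3 := two_mul_T_eq_U_sub_U ℝ (2 * (m : ℤ) - 2)
    rw [show 2 * (m : ℤ) - 2 + 2 = 2 * (m : ℤ) by ring] at h3
    rw [show 2 * (m : ℤ) + 1 - 1 = 2 * (m : ℤ) by ring,
      show 2 * (m : ℤ) - 1 - 1 = 2 * (m : ℤ) - 2 by ring]
    have e1 : (1 / (2 * (2 * (m : ℝ) + 1))) • (((2 * (m : ℤ) + 1 : ℤ) : ℝ[X]) * U ℝ (2 * (m : ℤ))) =
        (1 / 2 : ℝ) • U ℝ (2 * (m : ℤ)) := by
      have : ((2 * (m : ℤ) + 1 : ℤ) : ℝ[X]) = Polynomial.C (2 * (m : ℝ) + 1) := by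
        rw [Polynomial.C_add, Polynomial.C_mul, map_ofNat, Polynomial.C_1, map_natCast]
        push_cast
        rfl
      rw [this, ← smul_eq_C_mul, smul_smul]
      congr 1
      field_simp
    have e2 : (1 / (2 * (2 * (m : ℝ) - 1))) •
        (((2 * (m : ℤ) - 1 : ℤ) : ℝ[X]) * U ℝ (2 * (m : ℤ) - 2)) =
        (1 / 2 : ℝ) • U ℝ (2 * (m : ℤ) - 2) := by
      have : ((2 * (m : ℤ) - 1 : ℤ) : ℝ[X]) = Polynomial.C (2 * (m : ℝ) - 1) := by
        rw [Polynomial.C_sub, Polynomial.C_mul, map_ofNat, Polynomial.C_1, map_natCast]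
        push_cast
        rfl
      rw [this, ← smul_eq_C_mul, smul_smul]
      congr 1
      field_simp
    rw [e1, e2, ← smul_sub, ← h3, show (2 : ℝ[X]) = Polynomial.C 2 from (map_ofNat _ 2).symm, ← smul_eq_C_mul, smul_smul]
    norm_num
  have h4 : ∫ t in (-1 : ℝ)..1, (derivative Q).eval t = Q.eval 1 - Q.eval (-1) := by
    refine intervalIntegral.integral_eq_sub_of_hasDerivAt (fun x _ => Q.hasDerivAt x) ?_
    exact (derivative Q).continuous.intervalIntegrable _ _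
  rw [hder] at h4
  rw [h4, hQ]
  simp only [eval_sub, eval_smul, smul_eq_mul, T_eval_one, T_eval_neg_one]
  have e3 : ((2 * (m : ℤ) + 1).negOnePow : ℤ) = -1 := by
    rw [Int.negOnePow_odd _ ⟨m, rfl⟩]
    rfl
  have e4 : ((2 * (m : ℤ) - 1).negOnePow : ℤ) = -1 := by
    rw [Int.negOnePow_odd _ ⟨m - 1, by ring⟩]
    rfl
  rw [e3, e4]
  push_cast
  field_simp
  ring

/-- the value of `I` at the Chebyshev nodes. -/
theorem cheb_nodes (n : ℕ) (hn : 1 ≤ n) :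
    ∃ x : Fin n → ℝ, Function.Injective x ∧ (∀ k, x k ∈ Set.Icc (-1 : ℝ) 1) ∧
      I x = 2 - (2 * (n : ℝ) - 2) / (n * (2 * n - 1)) := by
  refine ⟨Cheb_z n, Cheb_z_inj n, fun k => ⟨Real.neg_one_le_cos _, Real.cos_le_one _⟩, ?_⟩
  unfold I
  simp only [Cheb_sum_sq]
  rw [intervalIntegral.integral_finsetSum (fun j _ => by
    refine Continuous.intervalIntegrable ?_ _ _
    exact continuous_const.mul ((T ℝ ((j : ℕ) : ℤ)).continuous.pow 2))]
  have hn' : (1 : ℝ) ≤ n := by exact_mod_cast hn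
  have hn0 : (n : ℝ) ≠ 0 := by positivity
  have h1 : ∀ j : ℕ, ∫ t in (-1 : ℝ)..1, (T ℝ (j : ℤ)).eval t ^ 2 =
      if j = 0 then 2 else 1 + (1 / (2 * (j : ℝ) + 1) - 1 / (2 * (j : ℝ) - 1)) / 2 := by
    intro j
    by_cases hj : j = 0
    · subst hj
      simp
      norm_num
    · rw [if_neg hj, ← Cheb_int j (by omega)]
      have h2 : ∀ t : ℝ, (T ℝ (j : ℤ)).eval t ^ 2 = ((T ℝ (2 * (j : ℤ))).eval t + 1) / 2 := by
        intro t
        rw [sq, Cheb_mul, sub_self, T_zero, eval_one, two_mul]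
      simp only [h2]
      rw [intervalIntegral.integral_div, intervalIntegral.integral_add
        ((T ℝ (2 * (j : ℤ))).continuous.intervalIntegrable _ _) (by simp)]
      simp
      ring
  have h3 : ∀ m : ℕ, 1 ≤ m → ∑ j ∈ Finset.range m, (if j = 0 then (1 : ℝ) else 2) *
      (if j = 0 then 2 else 1 + (1 / (2 * (j : ℝ) + 1) - 1 / (2 * (j : ℝ) - 1)) / 2) =
      2 * m + (1 / (2 * (m : ℝ) - 1) - 1) := by
    intro m hm
    induction m, hm using Nat.le_induction with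
    | base => norm_num
    | succ m hm ih =>
      rw [Finset.sum_range_succ, ih, if_neg (by omega), if_neg (by omega)]
      push_cast
      have : (2 * ((m : ℝ) + 1) - 1) = 2 * (m : ℝ) + 1 := by ring
      rw [this]
      ring
  have h4 : ∑ i : Fin n, ∫ x in (-1 : ℝ)..1, Cheb_w n i * (T ℝ ((i : ℕ) : ℤ)).eval x ^ 2 =
      (1 / n) * ∑ j ∈ Finset.range n, (if j = 0 then (1 : ℝ) else 2) *
      (if j = 0 then 2 else 1 + (1 / (2 * (j : ℝ) + 1) - 1 / (2 * (j : ℝ) - 1)) / 2) := by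
    rw [Finset.sum_range, Finset.mul_sum]
    refine Finset.sum_congr rfl fun i _ => ?_
    rw [intervalIntegral.integral_const_mul, h1, Cheb_w]
    split_ifs <;> ring
  rw [h4, h3 n hn]
  have h5 : (2 * (n : ℝ) - 1) ≠ 0 := by linarith
  have h6 : (n : ℝ) * 2 - 1 ≠ 0 := by linarith
  rw [eq_sub_iff_add_eq]
  field_simp
  ring

end LagMin
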