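import Pool.Agent.W_93ab53_h82.Sonin

/-!
# The pointwise inequality `κ² Q - 1/K ≤ 9/(8n²)`, `κ = π/n` (MP_93ab53_an, helper82)
-/

open Polynomial Real

namespace LagMin

/-- `Q/s + s K ≤ s (nν p² + B²)` with `B = w/(2s)`; here multiplied by `s`. -/
lemma X_le (N : ℕ) (hN : 1 ≤ N) {s y : ℝ} (hs : 0 < s) (hy : s ^ 2 = 1 - y ^ 2) :
    Q N y + s ^ 2 * K (N + 1) y ≤
      s ^ 2 * (((N : ℝ) + 1) * ((N : ℝ) + 1 / 2)) * p N y ^ 2 + w N y ^ 2 / 4 := by
  have hN0 : (0 : ℝ) < N := by exact_mod_cast hN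
  rw [Q_closed N hN, K_closed]
  have hw : w N y = y * p N y - 2 * s ^ 2 * p' N y := by unfold w; rw [hy]
  rw [hw, ← hy]
  set a := p N y
  set b := p' N y
  -- the difference is `(1/2N) (...)² + ...`
  have hdiff : s ^ 2 * (((N : ℝ) + 1) * ((N : ℝ) + 1 / 2)) * a ^ 2 +
      (y * a - 2 * s ^ 2 * b) ^ 2 / 4 -
      (1 / 2 * s ^ 2 * ((N : ℝ) * (N + 1) * a ^ 2 - 2 * y * a * b +
        ((N : ℝ) - 1) / N * (s ^ 2 * b ^ 2)) +
        s ^ 2 * (1 / 2 * (((N : ℝ) + 1) ^ 2 * a ^ 2 + s ^ 2 * b ^ 2))) =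
      y ^ 2 * a ^ 2 / 4 + s ^ 4 * b ^ 2 / (2 * N) := by
    field_simp
    ring
  have : 0 ≤ y ^ 2 * a ^ 2 / 4 + s ^ 4 * b ^ 2 / (2 * N) := by positivity
  linarith

theorem pointwise (N : ℕ) (hN : 1 ≤ N) {y : ℝ} (hy : y ∈ Set.Icc (-1 : ℝ) 1) :
    (π / ((N : ℝ) + 1)) ^ 2 * Q N y - 1 / K (N + 1) y ≤ 9 / (8 * ((N : ℝ) + 1) ^ 2) := by
  have hN0 : (1 : ℝ) ≤ N := by exact_mod_cast hN
  have hn : (0 : ℝ) < (N : ℝ) + 1 := by positivity
  have hK := K_pos (n := N + 1) (by omega) y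
  have hs2 : 0 ≤ 1 - y ^ 2 := by nlinarith [hy.1, hy.2]
  rcases le_or_gt (((N : ℝ) + 1 / 2) ^ 2 * (1 - y ^ 2)) (9 / 4) with hcase | hcase
  · -- edge region
    have h1 := Q_le_edge N hN hy
    have h2 := K_le (N + 1) hy
    have h3 : 2 / ((N : ℝ) + 1) ^ 2 ≤ 1 / K (N + 1) y := by
      rw [div_le_div_iff₀ (by positivity) hK]
      push_cast at h2
      linarith
    have h4 : (1 - y ^ 2) ^ 2 * ((N : ℝ) ^ 2 * ((N : ℝ) ^ 2 - 1)) / 16 ≤ 81 / 256 := by
      have a1 : (N : ℝ) ^ 2 * ((N : ℝ) ^ 2 - 1) ≤ (((N : ℝ) + 1 / 2) ^ 2) ^ 2 := by nlinarith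
      have a2 : ((((N : ℝ) + 1 / 2) ^ 2) * (1 - y ^ 2)) ^ 2 ≤ (9 / 4) ^ 2 :=
        pow_le_pow_left₀ (by positivity) hcase 2
      have a3 : (1 - y ^ 2) ^ 2 * ((N : ℝ) ^ 2 * ((N : ℝ) ^ 2 - 1)) ≤
          (1 - y ^ 2) ^ 2 * (((N : ℝ) + 1 / 2) ^ 2) ^ 2 :=
        mul_le_mul_of_nonneg_left a1 (by positivity)
      nlinarith
    have hpi : π ^ 2 ≤ 9.8765 := by
      have := Real.pi_lt_d4
      have := Real.pi_pos
      nlinarith
    have h5 : π ^ 2 * Q N y ≤ 25 / 8 := by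
      have : Q N y ≤ 81 / 256 := h1.trans h4
      have hq := Q_nonneg N y
      nlinarith [sq_nonneg π]
    have h6 : (π / ((N : ℝ) + 1)) ^ 2 * Q N y ≤ 25 / (8 * ((N : ℝ) + 1) ^ 2) := by
      rw [div_pow, div_mul_eq_mul_div, div_le_div_iff₀ (by positivity) (by positivity)]
      nlinarith [sq_nonneg ((N : ℝ) + 1), mul_le_mul_of_nonneg_right h5 (sq_nonneg ((N : ℝ) + 1))]
    have h7 : 25 / (8 * ((N : ℝ) + 1) ^ 2) = 9 / (8 * ((N : ℝ) + 1) ^ 2) +
        2 / ((N : ℝ) + 1) ^ 2 := by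
      field_simp; norm_num
    linarith
  · -- bulk
    have hs2' : 0 < 1 - y ^ 2 := by
      by_contra hc
      push Not at hc
      have : (1 - y ^ 2) = 0 := le_antisymm hc hs2
      rw [this] at hcase; norm_num at hcase
    set θ := arccos y with hθ
    have hcos : cos θ = y := cos_arccos hy.1 hy.2
    have hsin2 : sin θ ^ 2 = 1 - y ^ 2 := by rw [sin_sq, hcos]
    have hsn : 0 ≤ sin θ := sin_nonneg_of_nonneg_of_le_pi (arccos_nonneg _) (arccos_le_pi _)
    have hsp : 0 < sin θ := by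
      rcases eq_or_lt_of_le hsn with h | h
      · rw [← h] at hsin2; norm_num at hsin2; linarith
      · exact h
    have hθ0 : 0 < θ := by
      rcases eq_or_lt_of_le (arccos_nonneg y) with h | h
      · rw [← hθ] at h; rw [← h, sin_zero] at hsp; exact absurd hsp (lt_irrefl _)
      · exact h
    have hθ1 : θ < π := by
      rcases eq_or_lt_of_le (arccos_le_pi y) with h | h
      · rw [← hθ] at h; rw [h, sin_pi] at hsp; exact absurd hsp (lt_irrefl _)
      · exact h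
    have hG := G2_le N hθ0 hθ1
    rw [hcos] at hG
    set s := sin θ with hs
    have hX := X_le N hN hsp hsin2
    set ν : ℝ := (N : ℝ) + 1 / 2 with hν
    set n : ℝ := (N : ℝ) + 1 with hnn
    have hνn : ν ≤ n := by rw [hν, hnn]; linarith
    have hνp : 0 < ν := by positivity
    -- `nν s p² + w²/(4s) ≤ (nν + 1/(4s²)) ee`
    have hD : 0 < 4 * s ^ 2 * ν ^ 2 + 1 := by positivity
    have hee := ee_le N
    rw [← hν] at hee
    have step1 : s ^ 2 * (n * ν) * p N y ^ 2 + w N y ^ 2 / 4 ≤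
        (s * (n * ν) + 1 / (4 * s)) * ee N := by
      have t1 : s ^ 2 * (n * ν) * p N y ^ 2 ≤
          (s * (n * ν) + 1 / (4 * s)) * (s * p N y ^ 2) := by
        have : (s * (n * ν) + 1 / (4 * s)) * (s * p N y ^ 2) =
            s ^ 2 * (n * ν) * p N y ^ 2 + p N y ^ 2 / 4 := by
          field_simp
        rw [this]
        nlinarith [sq_nonneg (p N y)]
      have t2 : w N y ^ 2 / 4 ≤ (s * (n * ν) + 1 / (4 * s)) *
          (s * w N y ^ 2 / (4 * s ^ 2 * ν ^ 2 + 1)) := by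
        have e1 : (s * (n * ν) + 1 / (4 * s)) * (s * w N y ^ 2 / (4 * s ^ 2 * ν ^ 2 + 1)) =
            w N y ^ 2 / 4 * ((4 * s ^ 2 * (n * ν) + 1) / (4 * s ^ 2 * ν ^ 2 + 1)) := by
          field_simp
        rw [e1]
        have e2 : 1 ≤ (4 * s ^ 2 * (n * ν) + 1) / (4 * s ^ 2 * ν ^ 2 + 1) := by
          rw [le_div_iff₀ hD]
          have : ν ^ 2 ≤ n * ν := by nlinarith
          nlinarith [sq_nonneg s]
        have : 0 ≤ w N y ^ 2 / 4 := by positivity
        nlinarith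
      have t3 : 0 ≤ s * (n * ν) + 1 / (4 * s) := by positivity
      calc s ^ 2 * (n * ν) * p N y ^ 2 + w N y ^ 2 / 4 ≤
            (s * (n * ν) + 1 / (4 * s)) * (s * p N y ^ 2) +
            (s * (n * ν) + 1 / (4 * s)) * (s * w N y ^ 2 / (4 * s ^ 2 * ν ^ 2 + 1)) :=
              add_le_add t1 t2
        _ = (s * (n * ν) + 1 / (4 * s)) *
            (s * p N y ^ 2 + s * w N y ^ 2 / (4 * s ^ 2 * ν ^ 2 + 1)) := by ring
        _ ≤ _ := mul_le_mul_of_nonneg_left hG t3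
    have step2 : (s * (n * ν) + 1 / (4 * s)) * ee N ≤ 2 * n * s / π + 1 / (2 * π * ν * s) := by
      have t3 : 0 ≤ s * (n * ν) + 1 / (4 * s) := by positivity
      refine (mul_le_mul_of_nonneg_left hee t3).trans (le_of_eq ?_)
      have := Real.pi_pos
      field_simp
      ring
    have step3 : Q N y + s ^ 2 * K (N + 1) y ≤ 2 * n * s / π + 1 / (2 * π * ν * s) :=
      hX.trans (step1.trans step2)
    -- multiply by κ²
    have hκ : (π / n) ^ 2 * (Q N y + s ^ 2 * K (N + 1) y) ≤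
        2 * (π * s / n) + π / (2 * n ^ 2 * ν * s) := by
      refine (mul_le_mul_of_nonneg_left step3 (by positivity)).trans (le_of_eq ?_)
      have := Real.pi_pos
      field_simp
    have hamgm : 2 * (π * s / n) ≤ 1 / K (N + 1) y + (π / n) ^ 2 * (s ^ 2 * K (N + 1) y) := by
      have h := sq_nonneg (1 - (π * s / n) * K (N + 1) y)
      have h2 : 0 ≤ (1 - (π * s / n) * K (N + 1) y) ^ 2 / K (N + 1) y := by positivity
      have h3 : (1 - (π * s / n) * K (N + 1) y) ^ 2 / K (N + 1) y =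
          1 / K (N + 1) y + (π / n) ^ 2 * (s ^ 2 * K (N + 1) y) - 2 * (π * s / n) := by
        field_simp
        ring
      linarith
    have hνs : 3 / 2 < ν * s := by
      have h : (3 / 2 : ℝ) ^ 2 < (ν * s) ^ 2 := by
        rw [mul_pow, hsin2]; norm_num; exact hcase
      exact lt_of_pow_lt_pow_left₀ 2 (by positivity) h
    have hfin : π / (2 * n ^ 2 * ν * s) ≤ 9 / (8 * n ^ 2) := by
      rw [div_le_div_iff₀ (by positivity) (by positivity)]
      have hpi := Real.pi_lt_d4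
      have hn2 : 0 < n ^ 2 := by positivity
      nlinarith [mul_pos hn2 hνp, mul_lt_mul_of_pos_left hνs hn2]
    linarith

end LagMin
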