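import Pool.Agent.W_93ab53_h82.Orth

/-!
# Closed forms of `K` and `Q` on the diagonal, and the edge estimates (MP_93ab53_an, helper82)
-/

open Polynomial

namespace LagMin

theorem K_closed (N : ℕ) (y : ℝ) :
    K (N + 1) y = 1 / 2 * (((N : ℝ) + 1) ^ 2 * p N y ^ 2 + (1 - y ^ 2) * p' N y ^ 2) := by
  induction N with
  | zero => simp [K]
  | succ N ih =>
    have h : K (N + 1 + 1) y = K (N + 1) y + ((N : ℝ) + 1 + 1 / 2) * p (N + 1) y ^ 2 := by
      rw [K, Finset.sum_range_succ, ← K]; push_cast; ring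
    rw [h, ih]
    have a1 := e1 N y
    have a2 := e2 N y
    push_cast
    linear_combination
      -(1 / 2) * (p' (N + 1) y - y * p' N y + ((N : ℝ) + 1) * p N y) * a2 +
      (1 / 2) * (y * p' (N + 1) y - p' N y + ((N : ℝ) + 1) * p (N + 1) y) * a1

theorem Q_closed (N : ℕ) (hN : 1 ≤ N) (y : ℝ) :
    Q N y = 1 / 2 * (1 - y ^ 2) * ((N : ℝ) * (N + 1) * p N y ^ 2 - 2 * y * p N y * p' N y +
      ((N : ℝ) - 1) / N * ((1 - y ^ 2) * p' N y ^ 2)) := by
  induction N, hN using Nat.le_induction with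
  | base => rw [Q, Finset.Ico_self, Finset.sum_empty, p_one, p'_one]; push_cast; ring
  | succ N hN ih =>
    have h : Q (N + 1) y = Q N y + cc N * ((1 - y ^ 2) * p' N y) ^ 2 := by
      rw [Q, Finset.sum_Ico_succ_top hN, ← Q]
    have hN0 : (N : ℝ) ≠ 0 := by positivity
    have hN1 : (N : ℝ) + 1 ≠ 0 := by positivity
    have q' : p' (N + 1) y = ((N : ℝ) + 1) * p N y + y * p' N y := by linarith [e2 N y]
    have q : p (N + 1) y = y * p N y - (1 - y ^ 2) * p' N y / ((N : ℝ) + 1) := by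
      field_simp
      linarith [e4 N y]
    rw [h, ih, cc, q, q']
    push_cast
    field_simp
    ring

lemma Q_neg (N : ℕ) (y : ℝ) : Q N (-y) = Q N y := by
  unfold Q
  refine Finset.sum_congr rfl fun j _ => ?_
  rw [mul_pow, mul_pow, p'_sq_neg, neg_sq]

lemma K_neg (n : ℕ) (y : ℝ) : K n (-y) = K n y := by
  unfold K
  refine Finset.sum_congr rfl fun j _ => ?_
  rw [p_sq_neg]

lemma Q_nonneg (N : ℕ) (y : ℝ) : 0 ≤ Q N y := by
  unfold Q
  refine Finset.sum_nonneg fun j _ => ?_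
  have : 0 ≤ cc j := by unfold cc; positivity
  positivity

/-- `∑_{j<n} (j+1/2) = n²/2`, hence `K n y ≤ n²/2` on `[-1,1]`. -/
lemma K_le (n : ℕ) {y : ℝ} (hy : y ∈ Set.Icc (-1 : ℝ) 1) : K n y ≤ (n : ℝ) ^ 2 / 2 := by
  induction n with
  | zero => simp [K]
  | succ n ih =>
    have h : K (n + 1) y = K n y + ((n : ℝ) + 1 / 2) * p n y ^ 2 := by
      rw [K, Finset.sum_range_succ, ← K]
    rw [h]
    have := p_sq_le_one n hy
    push_cast
    nlinarith [this, (by positivity : (0 : ℝ) ≤ (n : ℝ) + 1 / 2)]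

/-- near the end points: `Q N y ≤ (1-y²)² N²(N²-1)/16`. -/
lemma Q_le_edge (N : ℕ) (hN : 1 ≤ N) {y : ℝ} (hy : y ∈ Set.Icc (-1 : ℝ) 1) :
    Q N y ≤ (1 - y ^ 2) ^ 2 * ((N : ℝ) ^ 2 * ((N : ℝ) ^ 2 - 1)) / 16 := by
  induction N, hN using Nat.le_induction with
  | base => simp [Q]
  | succ N hN ih =>
    have h : Q (N + 1) y = Q N y + cc N * ((1 - y ^ 2) * p' N y) ^ 2 := by
      rw [Q, Finset.sum_Ico_succ_top hN, ← Q]
    have hN0 : (0 : ℝ) < N := by exact_mod_cast hN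
    have hp : p' N y ^ 2 ≤ ((N : ℝ) * (N + 1) / 2) ^ 2 := by
      rw [← sq_abs]
      exact pow_le_pow_left₀ (abs_nonneg _) (abs_p'_le N hy) 2
    have hcc : cc N * ((N : ℝ) * (N + 1) / 2) ^ 2 = (2 * N + 1) * (N * (N + 1)) / 8 := by
      unfold cc
      field_simp
      ring
    have hc0 : 0 ≤ cc N := by unfold cc; positivity
    rw [h]
    have step : cc N * ((1 - y ^ 2) * p' N y) ^ 2 ≤
        (1 - y ^ 2) ^ 2 * ((2 * N + 1) * (N * (N + 1)) / 8) := by
      rw [← hcc]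
      calc cc N * ((1 - y ^ 2) * p' N y) ^ 2 = (cc N * (1 - y ^ 2) ^ 2) * p' N y ^ 2 := by ring
        _ ≤ (cc N * (1 - y ^ 2) ^ 2) * ((N : ℝ) * (N + 1) / 2) ^ 2 := by gcongr
        _ = _ := by ring
    refine (add_le_add ih step).trans (le_of_eq ?_)
    push_cast
    ring

end LagMin
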