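import Pool.Agent.W_93ab53_h82.Cert
import Pool.Agent.W_93ab53_h82.CD

/-!
# The trace `A N` for `N = 3, 4, 5` (MP_93ab53_an, helper82)

`A N = ∫_{-1}^1 √(1-t²) ∑_{j=1}^{N-1} c_j (1-t²) P_j'(t)² dt`
(`= ∫_0^π ∑ c_j sin⁴θ P_j'(cos θ)² dθ`), with `c_1 = 3/4, c_2 = 5/12, c_3 = 7/24, c_4 = 9/40`,
`P_1' = 1, P_2' = 3t, P_3' = (15t²-3)/2, P_4' = (35t³-15t)/2`, and
`∫_0^π sin⁴ = 3π/8`, `∫ sin⁴cos² = π/16`, `∫ sin⁴cos⁴ = 3π/128`, `∫ sin⁴cos⁶ = 3π/256`.
Exact values: `A 3 = 33π/64`, `A 4 = 3015π/4096`, `A 5 = 2.98551...`.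
-/

open Polynomial MeasureTheory intervalIntegral Real

namespace LagMin

/-- the moments -/
noncomputable def Small_S (k : ℕ) : ℝ := ∫ t in (-1 : ℝ)..1, Real.sqrt (1 - t ^ 2) * t ^ (2 * k)

theorem Small_S_zero : Small_S 0 = π / 2 := by
  unfold Small_S
  simp only [mul_zero, pow_zero, mul_one]
  exact integral_sqrt_one_sub_sq

theorem Small_S_succ (k : ℕ) :
    (2 * (k : ℝ) + 4) * Small_S (k + 1) = (2 * (k : ℝ) + 1) * Small_S k := by
  have h : ∫ t in (-1 : ℝ)..1, ((2 * (k : ℝ) + 1) * (Real.sqrt (1 - t ^ 2) * t ^ (2 * k)) -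
      (2 * (k : ℝ) + 4) * (Real.sqrt (1 - t ^ 2) * t ^ (2 * (k + 1)))) =
      (1 : ℝ) ^ (2 * k + 1) * (1 - 1 ^ 2) * Real.sqrt (1 - 1 ^ 2) -
      (-1 : ℝ) ^ (2 * k + 1) * (1 - (-1) ^ 2) * Real.sqrt (1 - (-1) ^ 2) := by
    refine intervalIntegral.integral_eq_sub_of_hasDerivAt_of_le (a := -1) (b := 1)
      (f := fun t : ℝ => t ^ (2 * k + 1) * (1 - t ^ 2) * Real.sqrt (1 - t ^ 2)) (by norm_num)
      (by fun_prop) ?_ ?_
    · intro t ht
      have h0 : 0 < 1 - t ^ 2 := by nlinarith [ht.1, ht.2]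
      have h1 : HasDerivAt (fun t : ℝ => t ^ (2 * k + 1)) (((2 * k + 1 : ℕ) : ℝ) * t ^ (2 * k)) t := by
        have := hasDerivAt_pow (2 * k + 1) t
        simpa using this
      have h2 : HasDerivAt (fun t : ℝ => 1 - t ^ 2) (-(2 * t)) t := by
        have := (hasDerivAt_pow 2 t).const_sub 1
        simpa using this
      have h3 := h2.sqrt h0.ne'
      have h4 := (h1.mul h2).mul h3
      refine h4.congr_deriv ?_
      have hs : Real.sqrt (1 - t ^ 2) ≠ 0 := (Real.sqrt_pos.2 h0).ne'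
      have hs2 : Real.sqrt (1 - t ^ 2) ^ 2 = 1 - t ^ 2 := Real.sq_sqrt h0.le
      have h5 : t ^ (2 * k + 1) = t ^ (2 * k) * t := pow_succ _ _
      have h6 : t ^ (2 * (k + 1)) = t ^ (2 * k) * t ^ 2 := by ring
      rw [h5, h6]
      push_cast
      have h7 : t ^ (2 * k) * t * (1 - t ^ 2) * (-(2 * t) / (2 * Real.sqrt (1 - t ^ 2))) =
          - (t ^ (2 * k) * t ^ 2 * Real.sqrt (1 - t ^ 2)) := by
        field_simp
        rw [hs2]
      simp only [Pi.mul_apply]
      rw [h5, h7]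
      ring
    · exact Continuous.intervalIntegrable (by fun_prop) _ _
  rw [intervalIntegral.integral_sub (Continuous.intervalIntegrable (by fun_prop) _ _)
    (Continuous.intervalIntegrable (by fun_prop) _ _), intervalIntegral.integral_const_mul,
    intervalIntegral.integral_const_mul] at h
  norm_num at h
  unfold Small_S
  linarith

theorem Small_S_one : Small_S 1 = π / 8 := by
  have h := Small_S_succ 0
  rw [Small_S_zero] at h
  norm_num at h
  linarith

theorem Small_S_two : Small_S 2 = π / 16 := by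
  have h := Small_S_succ 1
  rw [Small_S_one] at h
  norm_num at h
  linarith

theorem Small_S_three : Small_S 3 = 5 * π / 128 := by
  have h := Small_S_succ 2
  rw [Small_S_two] at h
  norm_num at h
  linarith

theorem Small_S_four : Small_S 4 = 7 * π / 256 := by
  have h := Small_S_succ 3
  rw [Small_S_three] at h
  norm_num at h
  linarith

theorem Small_int (a b c d e : ℝ) : ∫ t in (-1 : ℝ)..1, Real.sqrt (1 - t ^ 2) *
    (a + b * t ^ 2 + c * t ^ 4 + d * t ^ 6 + e * t ^ 8) =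
    a * (π / 2) + b * (π / 8) + c * (π / 16) + d * (5 * π / 128) + e * (7 * π / 256) := by
  rw [← Small_S_zero, ← Small_S_one, ← Small_S_two, ← Small_S_three, ← Small_S_four]
  unfold Small_S
  simp only [← intervalIntegral.integral_const_mul]
  rw [← intervalIntegral.integral_add, ← intervalIntegral.integral_add,
    ← intervalIntegral.integral_add, ← intervalIntegral.integral_add]
  · refine intervalIntegral.integral_congr fun t _ => ?_
    ring
  all_goals exact Continuous.intervalIntegrable (by fun_prop) _ _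

theorem Small_p_two (y : ℝ) : p 2 y = (3 * y ^ 2 - 1) / 2 := by
  have h := rec_p 0 y
  simp only [zero_add, p_one, p_zero] at h
  norm_num at h
  linarith

theorem Small_p_three (y : ℝ) : p 3 y = (5 * y ^ 3 - 3 * y) / 2 := by
  have h := rec_p 1 y
  norm_num [Small_p_two] at h
  linarith

theorem Small_p'_two (y : ℝ) : p' 2 y = 3 * y := by
  have h := e2 1 y
  norm_num at h
  linarith

theorem Small_p'_three (y : ℝ) : p' 3 y = (15 * y ^ 2 - 3) / 2 := by
  have h := e2 2 y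
  norm_num [Small_p_two, Small_p'_two] at h
  linarith

theorem Small_p'_four (y : ℝ) : p' 4 y = (35 * y ^ 3 - 15 * y) / 2 := by
  have h := e2 3 y
  norm_num [Small_p_three, Small_p'_three] at h
  linarith

theorem Small_R3 (t : ℝ) : R 3 t t = 3 / 4 + 3 * t ^ 2 + (-15 / 4) * t ^ 4 + 0 * t ^ 6 +
    0 * t ^ 8 := by
  have h : Finset.Ico 1 3 = {1, 2} := by decide
  rw [R, h, Finset.sum_pair (by norm_num), p'_one, Small_p'_two, cc, cc]
  push_cast
  ring

theorem Small_R4 (t : ℝ) : R 4 t t = 45 / 32 + (-135 / 32) * t ^ 2 + (615 / 32) * t ^ 4 +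
    (-525 / 32) * t ^ 6 + 0 * t ^ 8 := by
  have h : R 4 t t = R 3 t t + cc 3 * p' 3 t * ((1 - t ^ 2) * p' 3 t) := by
    unfold R
    rw [Finset.sum_Ico_succ_top (by norm_num)]
  rw [h, Small_R3, Small_p'_three, cc]
  push_cast
  ring

theorem Small_R5 (t : ℝ) : R 5 t t = 45 / 32 + (270 / 32) * t ^ 2 + (-1680 / 32) * t ^ 4 +
    (3570 / 32) * t ^ 6 + (-2205 / 32) * t ^ 8 := by
  have h : R 5 t t = R 4 t t + cc 4 * p' 4 t * ((1 - t ^ 2) * p' 4 t) := by
    unfold R
    rw [Finset.sum_Ico_succ_top (by norm_num)]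
  rw [h, Small_R4, Small_p'_four, cc]
  push_cast
  ring

theorem A_three : 33 * π / 64 ≤ A 3 := by
  unfold A
  simp only [Small_R3]
  rw [Small_int]
  linarith

theorem A_four : 3015 * π / 4096 ≤ A 4 := by
  unfold A
  simp only [Small_R4]
  rw [Small_int]
  linarith

theorem A_five : 0.95 * π ≤ A 5 := by
  unfold A
  simp only [Small_R5]
  rw [Small_int]
  have := Real.pi_pos
  linarith

end LagMin
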