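import Pool.Agent.W_93ab53_h82.Trace
import Pool.Agent.W_93ab53_h82.Small
import Pool.Agent.W_93ab53_h82.Point
import Pool.Agent.W_93ab53_h82.Cheb

/-!
# `M(n) ≥ 2 - 4/n` (MP_93ab53_an, helper82)
-/

open Polynomial Real

namespace LagMin

/-- certificate + pointwise inequality:
`I ≥ κ A - 9/(16 n)` with `κ = π/n`. -/
lemma I_ge (N : ℕ) (hN : 1 ≤ N) (x : Fin (N + 1) → ℝ) (hx : Function.Injective x)
    (hx' : ∀ k, x k ∈ Set.Icc (-1 : ℝ) 1) :
    π / ((N : ℝ) + 1) * A N - 9 / (16 * ((N : ℝ) + 1)) ≤ I x := by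
  have h := certificate x hx (π / ((N : ℝ) + 1))
  have hn : (0 : ℝ) < (N : ℝ) + 1 := by positivity
  have h2 : -(((N : ℝ) + 1) * (9 / (8 * ((N : ℝ) + 1) ^ 2))) ≤
      ∑ k, (1 / K (N + 1) (x k) - (π / ((N : ℝ) + 1)) ^ 2 * Q N (x k)) := by
    have : ∑ _k : Fin (N + 1), (-(9 / (8 * ((N : ℝ) + 1) ^ 2))) ≤
        ∑ k, (1 / K (N + 1) (x k) - (π / ((N : ℝ) + 1)) ^ 2 * Q N (x k)) := by
      refine Finset.sum_le_sum fun k _ => ?_
      have := pointwise N hN (hx' k)
      linarith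
    rw [Finset.sum_const, Finset.card_univ, Fintype.card_fin, nsmul_eq_mul] at this
    push_cast at this
    linarith
  have e : ((N : ℝ) + 1) * (9 / (8 * ((N : ℝ) + 1) ^ 2)) = 2 * (9 / (16 * ((N : ℝ) + 1))) := by
    field_simp
    norm_num
  rw [e] at h2
  linarith

/-- `(1 + log(πν))/ν ≤ 0.6180` for `ν ≥ 13/2`. -/
lemma log_bound {ν : ℝ} (hν : 13 / 2 ≤ ν) : 1 + log (π * ν) ≤ 0.6185 * ν := by
  have hpi := Real.pi_pos
  have h0 : 0 < ν := by linarith
  have h1 : log (π * ν) = log (π * (13 / 2)) + log (ν / (13 / 2)) := by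
    rw [← Real.log_mul (by positivity) (by positivity)]
    congr 1
    field_simp
  have h2 : log (ν / (13 / 2)) ≤ ν / (13 / 2) - 1 := Real.log_le_sub_one_of_pos (by positivity)
  have h3 : log (π * (13 / 2)) ≤ 3.02 := by
    have h4 : π * (13 / 2) ≤ 20.421 := by
      have := Real.pi_lt_d4
      linarith
    have h5 : log (π * (13 / 2)) ≤ log 20.421 := Real.log_le_log (by positivity) h4
    have h6 : (20.421 : ℝ) = 2 ^ 4 * (20.421 / 16) := by norm_num
    have h7 : log 20.421 = 4 * log 2 + log (20.421 / 16) := by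
      rw [h6, Real.log_mul (by norm_num) (by norm_num), Real.log_pow]
      norm_num
    have h8 := Real.log_two_lt_d9
    -- log(1.2763) = 2 log(1.1297..) ≤ 2 (0.1298)  (crude), write a = (20.421/16) ≤ 1.13^2
    have h9 : log (20.421 / 16) ≤ 2 * log 1.13 := by
      have : log ((1.13 : ℝ) ^ 2) = 2 * log 1.13 := by rw [Real.log_pow]; norm_num
      rw [← this]
      exact Real.log_le_log (by norm_num) (by norm_num)
    have h10 : log (1.13 : ℝ) ≤ 0.1235 := by
      rw [Real.log_le_iff_le_exp (by norm_num)]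
      have := Real.sum_le_exp_of_nonneg (x := (0.1235 : ℝ)) (by norm_num) 4
      refine le_trans ?_ this
      norm_num [Finset.sum_range_succ, Nat.factorial]
    rw [h7] at h5
    linarith
  rw [h1]
  have h11 : ν / (13 / 2) = 2 / 13 * ν := by ring
  rw [h11, ← h11] at h2
  linarith

/-- the general case `N ≥ 6`. -/
lemma lower_large (N : ℕ) (hN : 6 ≤ N) (x : Fin (N + 1) → ℝ) (hx : Function.Injective x)
    (hx' : ∀ k, x k ∈ Set.Icc (-1 : ℝ) 1) : 2 - 4 / ((N : ℝ) + 1) ≤ I x := by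
  have h1 := I_ge N (by omega) x hx hx'
  have hA := A_ge N (by omega)
  have hB := B0_le N (by omega)
  have hNr : (6 : ℝ) ≤ N := by exact_mod_cast hN
  have hlog := log_bound (ν := (N : ℝ) + 1 / 2) (by linarith)
  have hpi := Real.pi_pos
  set ν : ℝ := (N : ℝ) + 1 / 2 with hν
  set n : ℝ := (N : ℝ) + 1 with hn
  set B := ∫ θ in (0 : ℝ)..π, p N (cos θ) ^ 2
  have hνp : 0 < ν := by positivity
  have hnp : 0 < n := by positivity
  have hNp : (0 : ℝ) < N := by linarith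
  have hB2 : B ≤ 4 / π * 0.6185 := by
    refine hB.trans ?_
    rw [div_mul_eq_mul_div, div_mul_eq_mul_div, div_le_div_iff₀ (by positivity) hpi]
    nlinarith
  have hinv : 1 / (N : ℝ) ≤ 1 / 6 := by
    rw [div_le_div_iff₀ hNp (by norm_num)]; linarith
  have hinvp : 0 < 1 / (N : ℝ) := by positivity
  -- π A ≥ 2ν(1-1/(2N)) - π(1/2+1/(8N)) B
  have hπA : 2 * ν * (1 - 1 / (2 * N)) - π * ((1 / 2 + 1 / (8 * N)) * B) ≤ π * A N := by
    have h := mul_le_mul_of_nonneg_left hA hpi.le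
    refine le_trans (le_of_eq ?_) h
    field_simp
  have hc : 1 / 2 + 1 / (8 * (N : ℝ)) ≤ 25 / 48 := by
    have : 1 / (8 * (N : ℝ)) = 1 / 8 * (1 / N) := by field_simp
    rw [this]; linarith
  have hc0 : 0 ≤ 1 / 2 + 1 / (8 * (N : ℝ)) := by positivity
  have hprod : π * ((1 / 2 + 1 / (8 * (N : ℝ))) * B) ≤ 1.2886 := by
    have : (1 / 2 + 1 / (8 * (N : ℝ))) * B ≤ 25 / 48 * (4 / π * 0.6185) := by
      calc (1 / 2 + 1 / (8 * (N : ℝ))) * B ≤ (1 / 2 + 1 / (8 * (N : ℝ))) * (4 / π * 0.6185) :=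
            mul_le_mul_of_nonneg_left hB2 hc0
        _ ≤ _ := mul_le_mul_of_nonneg_right hc (by positivity)
    calc π * ((1 / 2 + 1 / (8 * (N : ℝ))) * B) ≤ π * (25 / 48 * (4 / π * 0.6185)) :=
          mul_le_mul_of_nonneg_left this hpi.le
      _ = 25 / 48 * 4 * 0.6185 := by field_simp
      _ ≤ 1.2886 := by norm_num
  have hmain : 2 * ν * (1 - 1 / (2 * N)) ≥ 2 * n - 2 - 1 / 12 := by
    have : 2 * ν * (1 - 1 / (2 * N)) = 2 * N - 1 / 2 * (1 / N) := by
      rw [hν]; field_simp; ring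
    rw [this, hn]; linarith
  have hfin : 2 * n - 4 ≤ π * A N - 9 / 16 := by
    have := hπA
    norm_num at *
    linarith
  calc 2 - 4 / n = (2 * n - 4) / n := by field_simp
    _ ≤ (π * A N - 9 / 16) / n := by gcongr
    _ = π / n * A N - 9 / (16 * n) := by field_simp
    _ ≤ I x := h1

/-- `(1 + log(πν))/ν ≤ 0.2047` for `ν ≥ 53/2`. -/
lemma log_bound' {ν : ℝ} (hν : 53 / 2 ≤ ν) : 1 + log (π * ν) ≤ 0.2047 * ν := by
  have hpi := Real.pi_pos
  have h0 : 0 < ν := by linarith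
  have h1 : log (π * ν) = log (π * (53 / 2)) + log (ν / (53 / 2)) := by
    rw [← Real.log_mul (by positivity) (by positivity)]
    congr 1
    field_simp
  have h2 : log (ν / (53 / 2)) ≤ ν / (53 / 2) - 1 := Real.log_le_sub_one_of_pos (by positivity)
  have h3 : log (π * (53 / 2)) ≤ 4.4235 := by
    have h4 : π * (53 / 2) ≤ 83.254 := by
      have := Real.pi_lt_d4
      linarith
    have h5 : log (π * (53 / 2)) ≤ log 83.254 := Real.log_le_log (by positivity) h4
    have h6 : (83.254 : ℝ) = 2 ^ 6 * (83.254 / 64) := by norm_num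
    have h7 : log 83.254 = 6 * log 2 + log (83.254 / 64) := by
      rw [h6, Real.log_mul (by norm_num) (by norm_num), Real.log_pow]
      norm_num
    have h8 := Real.log_two_lt_d9
    have h9 : log (83.254 / 64) ≤ 2 * log 1.1406 := by
      have : log ((1.1406 : ℝ) ^ 2) = 2 * log 1.1406 := by rw [Real.log_pow]; norm_num
      rw [← this]
      exact Real.log_le_log (by norm_num) (by norm_num)
    have h10 : log (1.1406 : ℝ) ≤ 0.1316 := by
      rw [Real.log_le_iff_le_exp (by norm_num)]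
      have := Real.sum_le_exp_of_nonneg (x := (0.1316 : ℝ)) (by norm_num) 4
      refine le_trans ?_ this
      norm_num [Finset.sum_range_succ, Nat.factorial]
    rw [h7] at h5
    linarith
  rw [h1]
  linarith

/-- the case `N ≥ 26` with the constant `3`. -/
lemma lower_large3 (N : ℕ) (hN : 26 ≤ N) (x : Fin (N + 1) → ℝ) (hx : Function.Injective x)
    (hx' : ∀ k, x k ∈ Set.Icc (-1 : ℝ) 1) : 2 - 3 / ((N : ℝ) + 1) ≤ I x := by
  have h1 := I_ge N (by omega) x hx hx'
  have hA := A_ge N (by omega)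
  have hB := B0_le N (by omega)
  have hNr : (26 : ℝ) ≤ N := by exact_mod_cast hN
  have hlog := log_bound' (ν := (N : ℝ) + 1 / 2) (by linarith)
  have hpi := Real.pi_pos
  set ν : ℝ := (N : ℝ) + 1 / 2 with hν
  set n : ℝ := (N : ℝ) + 1 with hn
  set B := ∫ θ in (0 : ℝ)..π, p N (cos θ) ^ 2
  have hνp : 0 < ν := by positivity
  have hnp : 0 < n := by positivity
  have hNp : (0 : ℝ) < N := by linarith
  have hB2 : B ≤ 4 / π * 0.2047 := by
    refine hB.trans ?_
    rw [div_mul_eq_mul_div, div_mul_eq_mul_div, div_le_div_iff₀ (by positivity) hpi]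
    nlinarith
  have hinv : 1 / (N : ℝ) ≤ 1 / 26 := by
    rw [div_le_div_iff₀ hNp (by norm_num)]; linarith
  have hinvp : 0 < 1 / (N : ℝ) := by positivity
  have hπA : 2 * ν * (1 - 1 / (2 * N)) - π * ((1 / 2 + 1 / (8 * N)) * B) ≤ π * A N := by
    have h := mul_le_mul_of_nonneg_left hA hpi.le
    refine le_trans (le_of_eq ?_) h
    field_simp
  have hc : 1 / 2 + 1 / (8 * (N : ℝ)) ≤ 105 / 208 := by
    have : 1 / (8 * (N : ℝ)) = 1 / 8 * (1 / N) := by field_simp
    rw [this]; linarith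
  have hc0 : 0 ≤ 1 / 2 + 1 / (8 * (N : ℝ)) := by positivity
  have hprod : π * ((1 / 2 + 1 / (8 * (N : ℝ))) * B) ≤ 0.4134 := by
    have : (1 / 2 + 1 / (8 * (N : ℝ))) * B ≤ 105 / 208 * (4 / π * 0.2047) := by
      calc (1 / 2 + 1 / (8 * (N : ℝ))) * B ≤ (1 / 2 + 1 / (8 * (N : ℝ))) * (4 / π * 0.2047) :=
            mul_le_mul_of_nonneg_left hB2 hc0
        _ ≤ _ := mul_le_mul_of_nonneg_right hc (by positivity)
    calc π * ((1 / 2 + 1 / (8 * (N : ℝ))) * B) ≤ π * (105 / 208 * (4 / π * 0.2047)) :=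
          mul_le_mul_of_nonneg_left this hpi.le
      _ = 105 / 208 * 4 * 0.2047 := by field_simp
      _ ≤ 0.4134 := by norm_num
  have hmain : 2 * ν * (1 - 1 / (2 * N)) ≥ 2 * n - 2 - 1 / 52 := by
    have : 2 * ν * (1 - 1 / (2 * N)) = 2 * N - 1 / 2 * (1 / N) := by
      rw [hν]; field_simp; ring
    rw [this, hn]; linarith
  have hfin : 2 * n - 3 ≤ π * A N - 9 / 16 := by
    have := hπA
    norm_num at *
    linarith
  calc 2 - 3 / n = (2 * n - 3) / n := by field_simp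
    _ ≤ (π * A N - 9 / 16) / n := by gcongr
    _ = π / n * A N - 9 / (16 * n) := by field_simp
    _ ≤ I x := h1

/-- `I ≥ 2 - 4/n` for every system of `n` distinct nodes in `[-1,1]`. -/
theorem lower (n : ℕ) (hn : 1 ≤ n) (x : Fin n → ℝ) (hx : Function.Injective x)
    (hx' : ∀ k, x k ∈ Set.Icc (-1 : ℝ) 1) : 2 - 4 / (n : ℝ) ≤ I x := by
  obtain ⟨N, rfl⟩ := Nat.exists_eq_add_of_le' hn
  push_cast
  have hpi := Real.pi_gt_d4
  have hpi2 : 9.869 ≤ π ^ 2 := by nlinarith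
  rcases Nat.lt_or_ge N 6 with h | h
  · interval_cases N
    · have := I_nonneg x; norm_num; linarith
    · have := I_nonneg x; norm_num; linarith
    · have := trivial_bound x hx
      norm_num at this ⊢
      linarith
    · have h1 := I_ge 3 (by norm_num) x hx hx'
      have h2 := A_three
      norm_num at h1 ⊢
      nlinarith
    · have h1 := I_ge 4 (by norm_num) x hx hx'
      have h2 := A_four
      norm_num at h1 ⊢
      nlinarith
    · have h1 := I_ge 5 (by norm_num) x hx hx'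
      have h2 := A_five
      norm_num at h1 ⊢
      nlinarith
  · exact lower_large N h x hx hx'

/-- `I ≥ 2 - 3/n` for every system of `n ≥ 27` distinct nodes in `[-1,1]`. -/
theorem lower3 (n : ℕ) (hn : 27 ≤ n) (x : Fin n → ℝ) (hx : Function.Injective x)
    (hx' : ∀ k, x k ∈ Set.Icc (-1 : ℝ) 1) : 2 - 3 / (n : ℝ) ≤ I x := by
  obtain ⟨N, rfl⟩ := Nat.exists_eq_add_of_le' (show 1 ≤ n by omega)
  push_cast
  exact lower_large3 N (by omega) x hx hx'

theorem main (n : ℕ) (hn : 1 ≤ n) :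
    2 - 4 / (n : ℝ) ≤ M n ∧ (27 ≤ n → 2 - 3 / (n : ℝ) ≤ M n) ∧
      M n ≤ 2 - (2 * (n : ℝ) - 2) / (n * (2 * n - 1)) := by
  obtain ⟨x, hx, hx', hI⟩ := cheb_nodes n hn
  have hne : {r : ℝ | ∃ x : Fin n → ℝ, Function.Injective x ∧
      (∀ k, x k ∈ Set.Icc (-1 : ℝ) 1) ∧ r = I x}.Nonempty := ⟨I x, x, hx, hx', rfl⟩
  refine ⟨?_, fun h27 => ?_, ?_⟩
  · apply le_csInf hne
    rintro r ⟨y, hy, hy', rfl⟩
    exact lower n hn y hy hy'
  · apply le_csInf hne
    rintro r ⟨y, hy, hy', rfl⟩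
    exact lower3 n h27 y hy hy'
  · apply csInf_le
    · refine ⟨0, ?_⟩
      rintro r ⟨y, _, _, rfl⟩
      exact I_nonneg y
    · exact ⟨x, hx, hx', hI.symm⟩

end LagMin
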