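import Mathlib

/-!
# The quantities of MP_93ab53_an (helper82)
-/

open scoped BigOperators

namespace LagMin

/-- The `k`-th fundamental Lagrange polynomial of the node system `x` (as a real function):
`l_k(t) = ∏_{i ≠ k} (t - x_i)/(x_k - x_i)`. -/
noncomputable def ell {n : ℕ} (x : Fin n → ℝ) (k : Fin n) (t : ℝ) : ℝ :=
  ∏ i ∈ Finset.univ.erase k, (t - x i) / (x k - x i)

/-- `I(x_1,…,x_n) = ∫_{-1}^{1} ∑_k l_k(t)² dt`. -/
noncomputable def I {n : ℕ} (x : Fin n → ℝ) : ℝ :=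
  ∫ t in (-1 : ℝ)..1, ∑ k, ell x k t ^ 2

/-- `M(n)`: the infimum of `I` over all choices of `n` distinct nodes in `[-1,1]`. -/
noncomputable def M (n : ℕ) : ℝ :=
  sInf {r : ℝ | ∃ x : Fin n → ℝ, Function.Injective x ∧ (∀ k, x k ∈ Set.Icc (-1 : ℝ) 1) ∧ r = I x}

/-- `ell` is the evaluation of Mathlib's `Lagrange.basis`. -/
lemma ell_eq {n : ℕ} (x : Fin n → ℝ) (k : Fin n) (t : ℝ) :
    ell x k t = (Lagrange.basis Finset.univ x k).eval t := by
  unfold ell Lagrange.basis Lagrange.basisDivisor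
  rw [Polynomial.eval_prod]
  refine Finset.prod_congr rfl fun i _ => ?_
  simp [div_eq_inv_mul]

lemma I_nonneg {n : ℕ} (x : Fin n → ℝ) : 0 ≤ I x := by
  unfold I
  apply intervalIntegral.integral_nonneg (by norm_num)
  intro t _
  positivity

end LagMin
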