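import Pool.Agent.W_93ab53_h82.Orth
import Pool.Agent.W_93ab53_h82.Defs

/-!
# The certificate inequality (MP_93ab53_an, helper82)
-/

open Polynomial MeasureTheory intervalIntegral

namespace LagMin

/-- `A N = ∫_{-1}^1 √(1-t²) R(t,t) dt`. -/
noncomputable def A (N : ℕ) : ℝ := ∫ t in (-1 : ℝ)..1, Real.sqrt (1 - t ^ 2) * R N t t

lemma natDegree_basis_le {N : ℕ} (x : Fin (N + 1) → ℝ) (hx : Function.Injective x)
    (k : Fin (N + 1)) : (Lagrange.basis Finset.univ x k).natDegree ≤ N := by
  rw [Lagrange.natDegree_basis hx.injOn (Finset.mem_univ k)]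
  simp

lemma continuous_ell {n : ℕ} (x : Fin n → ℝ) (k : Fin n) : Continuous (ell x k) := by
  have : ell x k = fun t => (Lagrange.basis Finset.univ x k).eval t := by
    ext t; exact ell_eq x k t
  rw [this]
  exact (Lagrange.basis Finset.univ x k).continuous

lemma I_eq_sum {n : ℕ} (x : Fin n → ℝ) : I x = ∑ k, ∫ t in (-1 : ℝ)..1, ell x k t ^ 2 := by
  unfold I
  rw [intervalIntegral.integral_finsetSum]
  intro k _
  exact Continuous.intervalIntegrable ((continuous_ell x k).pow 2) _ _

lemma one_div_K_le {N : ℕ} (x : Fin (N + 1) → ℝ) (hx : Function.Injective x)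
    (k : Fin (N + 1)) : 1 / K (N + 1) (x k) ≤ ∫ t in (-1 : ℝ)..1, ell x k t ^ 2 := by
  have h := sq_eval_le (n := N + 1) (by omega) (Lagrange.basis Finset.univ x k)
    (by simpa using natDegree_basis_le x hx k) (x k)
  rw [Lagrange.eval_basis_self hx.injOn (Finset.mem_univ k)] at h
  have hK := K_pos (n := N + 1) (by omega) (x k)
  rw [div_le_iff₀ hK]
  simp only [ell_eq]
  linarith

lemma interp_R {N : ℕ} (x : Fin (N + 1) → ℝ) (hx : Function.Injective x) (t : ℝ) :
    ∑ k, ell x k t * R N t (x k) = R N t t := by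
  have hdeg : (Rpoly N t).degree < (Finset.univ : Finset (Fin (N + 1))).card := by
    rw [Finset.card_univ, Fintype.card_fin]
    exact lt_of_le_of_lt degree_le_natDegree
      (by exact_mod_cast Nat.lt_succ_of_le (natDegree_Rpoly_le N t))
  have h := Lagrange.eq_interpolate hx.injOn hdeg
  have h2 := congrArg (eval t) h
  rw [Lagrange.interpolate_apply, eval_finsetSum, eval_Rpoly] at h2
  rw [h2]
  refine Finset.sum_congr rfl fun k _ => ?_
  rw [eval_mul, eval_C, eval_Rpoly, ell_eq, mul_comm]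

lemma test_le {N : ℕ} (x : Fin (N + 1) → ℝ) (k : Fin (N + 1)) (κ : ℝ) :
    2 * κ * (∫ t in (-1 : ℝ)..1, Real.sqrt (1 - t ^ 2) * (ell x k t * R N t (x k)))
      - κ ^ 2 * Q N (x k) ≤ ∫ t in (-1 : ℝ)..1, ell x k t ^ 2 := by
  have hc : Continuous (ell x k) := continuous_ell x k
  have h0 : 0 ≤ ∫ t in (-1 : ℝ)..1, (ell x k t - κ * (Real.sqrt (1 - t ^ 2) * R N t (x k))) ^ 2 :=
    intervalIntegral.integral_nonneg (by norm_num) (fun t _ => sq_nonneg _)
  have h1 : ∫ t in (-1 : ℝ)..1, (ell x k t - κ * (Real.sqrt (1 - t ^ 2) * R N t (x k))) ^ 2 =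
      ∫ t in (-1 : ℝ)..1, (ell x k t ^ 2 -
        2 * κ * (Real.sqrt (1 - t ^ 2) * (ell x k t * R N t (x k))) +
        κ ^ 2 * ((1 - t ^ 2) * R N t (x k) ^ 2)) := by
    apply intervalIntegral.integral_congr
    intro t ht
    rw [Set.uIcc_of_le (by norm_num)] at ht
    have hs : Real.sqrt (1 - t ^ 2) ^ 2 = 1 - t ^ 2 := Real.sq_sqrt (by nlinarith [ht.1, ht.2])
    simp only
    linear_combination κ ^ 2 * R N t (x k) ^ 2 * hs
  rw [h1, intervalIntegral.integral_add, intervalIntegral.integral_sub,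
    intervalIntegral.integral_const_mul, intervalIntegral.integral_const_mul, norm_R] at h0
  · linarith
  all_goals exact Continuous.intervalIntegrable (by fun_prop) _ _

/-- The certificate: for all node systems,
`2 I ≥ ∑ 1/K(x_k) + 2 κ A - κ² ∑ Q(x_k)`. -/
theorem certificate {N : ℕ} (x : Fin (N + 1) → ℝ) (hx : Function.Injective x) (κ : ℝ) :
    2 * κ * A N + ∑ k, (1 / K (N + 1) (x k) - κ ^ 2 * Q N (x k)) ≤ 2 * I x := by
  have hA : A N = ∑ k, ∫ t in (-1 : ℝ)..1, Real.sqrt (1 - t ^ 2) * (ell x k t * R N t (x k)) := by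
    unfold A
    rw [← intervalIntegral.integral_finsetSum]
    · congr 1; ext t
      rw [← Finset.mul_sum, interp_R x hx]
    · intro k _
      have hc : Continuous (ell x k) := continuous_ell x k
      exact Continuous.intervalIntegrable (by fun_prop) _ _
  rw [I_eq_sum, hA, Finset.mul_sum, ← Finset.sum_add_distrib, Finset.mul_sum]
  refine Finset.sum_le_sum fun k _ => ?_
  have h1 := one_div_K_le x hx k
  have h2 := test_le x k κ
  linarith

/-- trivial bound `I ≥ 2/n`. -/
theorem trivial_bound {N : ℕ} (x : Fin (N + 1) → ℝ) (hx : Function.Injective x) :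
    2 / ((N : ℝ) + 1) ≤ I x := by
  have hN : (0 : ℝ) < (N : ℝ) + 1 := by positivity
  unfold I
  have h1 : ∀ t, 1 / ((N : ℝ) + 1) ≤ ∑ k, ell x k t ^ 2 := by
    intro t
    have hs : ∑ k, ell x k t = 1 := by
      have := congrArg (eval t) (Lagrange.sum_basis (s := Finset.univ) (v := x) hx.injOn
        Finset.univ_nonempty)
      rw [eval_finsetSum, eval_one] at this
      rw [← this]
      exact Finset.sum_congr rfl fun k _ => ell_eq x k t
    have hcs := Finset.sum_mul_sq_le_sq_mul_sq Finset.univ (fun k => ell x k t) (fun _ => (1 : ℝ))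
    simp only [mul_one, hs, one_pow, Finset.sum_const, Finset.card_univ, Fintype.card_fin,
      nsmul_eq_mul] at hcs
    push_cast at hcs
    rw [div_le_iff₀ hN]
    exact hcs
  have h2 : ∫ _t in (-1 : ℝ)..1, 1 / ((N : ℝ) + 1) ≤ ∫ t in (-1 : ℝ)..1, ∑ k, ell x k t ^ 2 := by
    apply intervalIntegral.integral_mono_on (by norm_num)
    · exact Continuous.intervalIntegrable continuous_const _ _
    · exact Continuous.intervalIntegrable
        (continuous_finset_sum _ fun k _ => (continuous_ell x k).pow 2) _ _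
    · intro t _; exact h1 t
  rw [intervalIntegral.integral_const] at h2
  norm_num at h2
  calc 2 / ((N : ℝ) + 1) = 2 * ((N : ℝ) + 1)⁻¹ := by ring
    _ ≤ _ := h2

end LagMin
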