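import Mathlib

/-!
# Legendre polynomials over `ℝ` (helper file for MP_93ab53_an, helper82)
-/

open Polynomial

namespace LagMin

/-- The Legendre polynomials `P_0 = 1`, `P_1 = X`,
`(j+2) P_{j+2} = (2j+3) X P_{j+1} - (j+1) P_j`. -/
noncomputable def P : ℕ → ℝ[X]
  | 0 => 1
  | 1 => X
  | (j + 2) => C (1 / ((j : ℝ) + 2)) *
      (C (2 * (j : ℝ) + 3) * X * P (j + 1) - C ((j : ℝ) + 1) * P j)

lemma P_zero : P 0 = 1 := by rw [P]
lemma P_one : P 1 = X := by rw [P]

lemma P_rec (j : ℕ) : C ((j : ℝ) + 2) * P (j + 2) =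
    C (2 * (j : ℝ) + 3) * X * P (j + 1) - C ((j : ℝ) + 1) * P j := by
  have h : ((j : ℝ) + 2) ≠ 0 := by positivity
  rw [show P (j + 2) = C (1 / ((j : ℝ) + 2)) *
      (C (2 * (j : ℝ) + 3) * X * P (j + 1) - C ((j : ℝ) + 1) * P j) from by rw [P]]
  rw [← mul_assoc, ← C_mul, mul_one_div_cancel h, C_1, one_mul]

/-- the two derivative identities, together (they are proved by a joint induction). -/
lemma P_deriv_aux (j : ℕ) :
    (X * derivative (P (j + 1)) - derivative (P j) = C ((j : ℝ) + 1) * P (j + 1)) ∧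
    (derivative (P (j + 1)) - X * derivative (P j) = C ((j : ℝ) + 1) * P j) := by
  induction j with
  | zero =>
    simp [P_zero, P_one]
  | succ j ih =>
    obtain ⟨h1, h2⟩ := ih
    have hr := P_rec j
    have hd := congrArg derivative hr
    simp only [derivative_mul, derivative_sub, derivative_C, derivative_X, zero_mul, zero_add,
      mul_one] at hd
    have hne : (C ((j : ℝ) + 2) : ℝ[X]) ≠ 0 := by
      rw [Ne, C_eq_zero]; positivity
    -- write everything with constants as polynomials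
    have e2 : (C (2 * (j : ℝ) + 3) : ℝ[X]) = 2 * C ((j : ℝ) + 1) + 1 := by
      rw [show (2 * (j : ℝ) + 3) = 2 * ((j : ℝ) + 1) + 1 by ring]
      rw [C_add, C_mul, C_1, show (C (2 : ℝ) : ℝ[X]) = 2 from map_ofNat C 2]
    have e3 : (C ((j : ℝ) + 2) : ℝ[X]) = C ((j : ℝ) + 1) + 1 := by
      rw [show ((j : ℝ) + 2) = ((j : ℝ) + 1) + 1 by ring]
      rw [C_add, C_1]
    have e4 : (C (((j + 1 : ℕ) : ℝ) + 1) : ℝ[X]) = C ((j : ℝ) + 1) + 1 := by
      push_cast
      rw [← C_1, ← C_add]
    rw [e2, e3] at hd hr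
    rw [e3] at hne
    rw [e4]
    set a : ℝ[X] := C ((j : ℝ) + 1) with ha
    set p := P j
    set q := P (j + 1)
    set r := P (j + 2)
    have k2 : derivative r - X * derivative q = (a + 1) * q := by
      apply mul_left_cancel₀ hne
      linear_combination hd + a * h1
    refine ⟨?_, k2⟩
    apply mul_left_cancel₀ hne
    linear_combination X * hd - (a + 1) * hr + (2 * a + 1) * X * h1 - (a + 1) * h2

/-! ### evaluated forms -/

/-- value of `P_j` -/
noncomputable def p (j : ℕ) (y : ℝ) : ℝ := (P j).eval y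
/-- value of `P_j'` -/
noncomputable def p' (j : ℕ) (y : ℝ) : ℝ := (derivative (P j)).eval y
/-- value of `P_j''` -/
noncomputable def p'' (j : ℕ) (y : ℝ) : ℝ := (derivative (derivative (P j))).eval y

lemma hasDerivAt_p (j : ℕ) (y : ℝ) : HasDerivAt (p j) (p' j y) y := (P j).hasDerivAt y
lemma hasDerivAt_p' (j : ℕ) (y : ℝ) : HasDerivAt (p' j) (p'' j y) y :=
  (derivative (P j)).hasDerivAt y

@[fun_prop] lemma continuous_p (j : ℕ) : Continuous (p j) := (P j).continuous
@[fun_prop] lemma continuous_p' (j : ℕ) : Continuous (p' j) := (derivative (P j)).continuous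

@[simp] lemma p_zero (y : ℝ) : p 0 y = 1 := by simp [p, P_zero]
@[simp] lemma p_one (y : ℝ) : p 1 y = y := by simp [p, P_one]
@[simp] lemma p'_zero (y : ℝ) : p' 0 y = 0 := by simp [p', P_zero]
@[simp] lemma p'_one (y : ℝ) : p' 1 y = 1 := by simp [p', P_one]

lemma rec_p (j : ℕ) (y : ℝ) :
    ((j : ℝ) + 2) * p (j + 2) y = (2 * j + 3) * y * p (j + 1) y - ((j : ℝ) + 1) * p j y := by
  have h := congrArg (eval y) (P_rec j)
  simpa [p] using h

lemma e1 (j : ℕ) (y : ℝ) : y * p' (j + 1) y - p' j y = ((j : ℝ) + 1) * p (j + 1) y := by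
  have h := congrArg (eval y) (P_deriv_aux j).1
  simpa [p, p'] using h

lemma e2 (j : ℕ) (y : ℝ) : p' (j + 1) y - y * p' j y = ((j : ℝ) + 1) * p j y := by
  have h := congrArg (eval y) (P_deriv_aux j).2
  simpa [p, p'] using h

lemma e3 (j : ℕ) (y : ℝ) :
    (1 - y ^ 2) * p' (j + 1) y = ((j : ℝ) + 1) * (p j y - y * p (j + 1) y) := by
  linear_combination e2 j y - y * e1 j y

lemma e4 (j : ℕ) (y : ℝ) :
    (1 - y ^ 2) * p' j y = ((j : ℝ) + 1) * (y * p j y - p (j + 1) y) := by
  linear_combination y * e2 j y - e1 j y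

/-- Legendre's differential equation. -/
lemma ode (j : ℕ) (y : ℝ) :
    (1 - y ^ 2) * p'' j y = 2 * y * p' j y - (j : ℝ) * (j + 1) * p j y := by
  have h4 : (1 - X ^ 2) * derivative (P j) = C ((j : ℝ) + 1) * (X * P j - P (j + 1)) := by
    have h1 := (P_deriv_aux j).1
    have h2 := (P_deriv_aux j).2
    linear_combination X * h2 - h1
  have hd := congrArg (eval y) (congrArg derivative h4)
  simp only [derivative_mul, derivative_sub, derivative_C, derivative_X, zero_mul, zero_add,
    one_mul, derivative_one, derivative_X_pow, eval_add, eval_mul, eval_sub, eval_C, eval_X,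
    eval_pow, eval_one, Nat.cast_ofNat, zero_sub, eval_neg] at hd
  have h2 := e2 j y
  simp only [p, p', p''] at *
  have hd' : -(2 * y ^ (2 - 1)) * eval y (derivative (P j)) +
      (1 - y ^ 2) * eval y (derivative (derivative (P j))) =
      ((j : ℝ) + 1) * (eval y (P j) + y * eval y (derivative (P j)) -
        eval y (derivative (P (j + 1)))) := by
    simpa using hd
  simp only [Nat.reduceSub, pow_one] at hd'
  linear_combination hd' - ((j : ℝ) + 1) * h2

/-! ### parity -/

lemma p_neg (j : ℕ) (y : ℝ) : p j (-y) = (-1) ^ j * p j y := by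
  induction j using Nat.strong_induction_on with
  | _ j ih =>
    match j with
    | 0 => simp
    | 1 => simp
    | (j + 2) =>
      have h1 := ih (j + 1) (by omega)
      have h0 := ih j (by omega)
      have r1 := rec_p j (-y)
      have r2 := rec_p j y
      have hj : ((j : ℝ) + 2) ≠ 0 := by positivity
      rw [h1, h0] at r1
      apply mul_left_cancel₀ hj
      rw [r1, pow_succ, pow_succ]
      linear_combination -((-1) ^ j * r2)

lemma p'_neg (j : ℕ) (y : ℝ) : p' j (-y) = (-1) ^ (j + 1) * p' j y := by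
  induction j with
  | zero => simp
  | succ j ih =>
    have a1 := e2 j (-y)
    have a2 := e2 j y
    rw [p_neg, ih] at a1
    rw [pow_succ] at a1 ⊢
    rw [pow_succ]
    linear_combination a1 - (-1) ^ j * a2

lemma p_sq_neg (j : ℕ) (y : ℝ) : p j (-y) ^ 2 = p j y ^ 2 := by
  rw [p_neg, mul_pow, ← pow_mul, mul_comm j 2, pow_mul]; norm_num

lemma p'_sq_neg (j : ℕ) (y : ℝ) : p' j (-y) ^ 2 = p' j y ^ 2 := by
  rw [p'_neg, mul_pow, ← pow_mul, mul_comm (j + 1) 2, pow_mul]; norm_num

/-! ### values at zero -/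

lemma p_odd_zero (m : ℕ) : p (2 * m + 1) 0 = 0 := by
  have h := p_neg (2 * m + 1) 0
  rw [neg_zero, pow_succ, pow_mul] at h
  norm_num at h
  linarith

lemma p'_even_zero (m : ℕ) : p' (2 * m) 0 = 0 := by
  have h := p'_neg (2 * m) 0
  rw [neg_zero, pow_succ, pow_mul] at h
  norm_num at h
  linarith

lemma p'_odd_zero (m : ℕ) : p' (2 * m + 1) 0 = (2 * m + 1) * p (2 * m) 0 := by
  have h := e2 (2 * m) 0
  push_cast at h
  linarith

lemma p_even_zero_succ (m : ℕ) :
    (2 * (m : ℝ) + 2) * p (2 * (m + 1)) 0 = -((2 * (m : ℝ) + 1) * p (2 * m) 0) := by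
  have h := rec_p (2 * m) 0
  rw [show 2 * m + 2 = 2 * (m + 1) by ring] at h
  push_cast at h
  linarith

/-! ### bounds on `[-1,1]` -/

lemma p_one_eq (j : ℕ) : p j 1 = 1 := by
  induction j using Nat.strong_induction_on with
  | _ j ih =>
    match j with
    | 0 => simp
    | 1 => simp
    | (j + 2) =>
      have h1 := ih (j + 1) (by omega)
      have h0 := ih j (by omega)
      have r := rec_p j 1
      have hj : ((j : ℝ) + 2) ≠ 0 := by positivity
      rw [h1, h0] at r
      apply mul_left_cancel₀ hj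
      rw [r]; ring

/-- `P_j² + (1-y²) P_j'²/(j(j+1)) ≤ 1` on `[0,1]`, multiplied by `j(j+1)`. -/
lemma sonin_one (j : ℕ) {y : ℝ} (h0 : 0 ≤ y) (h1 : y ≤ 1) :
    (j : ℝ) * (j + 1) * p j y ^ 2 + (1 - y ^ 2) * p' j y ^ 2 ≤ (j : ℝ) * (j + 1) := by
  set f : ℝ → ℝ := fun t => (j : ℝ) * (j + 1) * p j t ^ 2 + (1 - t ^ 2) * p' j t ^ 2 with hf
  have hderiv : ∀ t, HasDerivAt f (2 * t * p' j t ^ 2) t := by
    intro t
    have a := ((hasDerivAt_p j t).pow 2).const_mul ((j : ℝ) * (j + 1))
    have b := (((hasDerivAt_id t).pow 2).const_sub 1).mul ((hasDerivAt_p' j t).pow 2)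
    have c := a.add b
    refine c.congr_deriv ?_
    have o := ode j t
    simp only [id, Pi.pow_apply]
    push_cast
    simp only [pow_one, mul_one]
    linear_combination 2 * p' j t * o
  have hmono : MonotoneOn f (Set.Ici 0) := by
    apply monotoneOn_of_deriv_nonneg (convex_Ici 0)
    · exact fun t _ => (hderiv t).continuousAt.continuousWithinAt
    · exact fun t _ => (hderiv t).differentiableAt.differentiableWithinAt
    · intro t ht
      rw [interior_Ici] at ht
      rw [(hderiv t).deriv]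
      have : (0 : ℝ) < t := ht
      positivity
  have := hmono (Set.mem_Ici.2 h0) (Set.mem_Ici.2 zero_le_one) h1
  simp only [hf] at this
  rw [p_one_eq] at this
  simpa using this

lemma abs_p_le_one (j : ℕ) {y : ℝ} (hy : y ∈ Set.Icc (-1 : ℝ) 1) : |p j y| ≤ 1 := by
  wlog h : 0 ≤ y with H
  · have := H j (y := -y) ⟨by linarith [hy.2], by linarith [hy.1]⟩ (by linarith)
    rw [p_neg, abs_mul, abs_pow, abs_neg, abs_one, one_pow, one_mul] at this
    exact this
  rcases Nat.eq_zero_or_pos j with rfl | hj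
  · simp
  have hs := sonin_one j h hy.2
  have hjj : (0 : ℝ) < (j : ℝ) * (j + 1) := by positivity
  have h1 : 0 ≤ (1 - y ^ 2) * p' j y ^ 2 := by
    have : 0 ≤ 1 - y ^ 2 := by nlinarith [hy.2]
    positivity
  have h2 : p j y ^ 2 ≤ 1 := by
    by_contra hc
    push Not at hc
    nlinarith
  exact abs_le_one_iff_mul_self_le_one.2 (by nlinarith)

lemma p_sq_le_one (j : ℕ) {y : ℝ} (hy : y ∈ Set.Icc (-1 : ℝ) 1) : p j y ^ 2 ≤ 1 := by
  have := abs_p_le_one j hy
  rw [← sq_abs]
  have h0 := abs_nonneg (p j y)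
  nlinarith

lemma abs_p'_le (j : ℕ) {y : ℝ} (hy : y ∈ Set.Icc (-1 : ℝ) 1) :
    |p' j y| ≤ (j : ℝ) * (j + 1) / 2 := by
  induction j using Nat.strong_induction_on with
  | _ j ih =>
    match j with
    | 0 => simp
    | 1 => simp
    | (j + 2) =>
      have h0 := ih j (by omega)
      have hp := abs_p_le_one (j + 1) hy
      -- P_{j+2}' = P_j' + (2j+3) P_{j+1}
      have hrec : p' (j + 2) y = p' j y + (2 * j + 3) * p (j + 1) y := by
        have a := e2 (j + 1) y
        have b := e1 j y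
        push_cast at a
        linarith
      rw [hrec]
      calc |p' j y + (2 * j + 3) * p (j + 1) y| ≤ |p' j y| + |(2 * j + 3) * p (j + 1) y| :=
            abs_add_le _ _
        _ = |p' j y| + (2 * j + 3) * |p (j + 1) y| := by
            rw [abs_mul, abs_of_nonneg (by positivity : (0 : ℝ) ≤ 2 * j + 3)]
        _ ≤ (j : ℝ) * (j + 1) / 2 + (2 * j + 3) * 1 := by
            gcongr
        _ = ((j + 2 : ℕ) : ℝ) * (((j + 2 : ℕ) : ℝ) + 1) / 2 := by
            push_cast; ring

end LagMin
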