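import Pool.Agent.W_93ab53_h82.Leg

/-!
# Orthogonality of the Legendre polynomials, the kernels `K` and `Q` (MP_93ab53_an, helper82)
-/

open Polynomial MeasureTheory intervalIntegral

namespace LagMin

/-! ### orthogonality -/

lemma int_deriv_deriv (i j : ℕ) :
    ∫ t in (-1 : ℝ)..1, (1 - t ^ 2) * p' i t * p' j t =
      (i : ℝ) * (i + 1) * ∫ t in (-1 : ℝ)..1, p i t * p j t := by
  have hder : ∀ t ∈ Set.uIcc (-1 : ℝ) 1, HasDerivAt (fun t => (1 - t ^ 2) * p' i t * p j t)
      ((1 - t ^ 2) * p' i t * p' j t - (i : ℝ) * (i + 1) * (p i t * p j t)) t := by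
    intro t _
    have a := (((((hasDerivAt_id t).pow 2).const_sub 1).mul (hasDerivAt_p' i t)).mul
      (hasDerivAt_p j t))
    refine a.congr_deriv ?_
    have o := ode i t
    simp only [id, Pi.pow_apply, Pi.mul_apply]
    push_cast
    simp only [pow_one, mul_one]
    linear_combination p j t * o
  have h := integral_eq_sub_of_hasDerivAt hder
    (Continuous.intervalIntegrable (by fun_prop) _ _)
  rw [intervalIntegral.integral_sub (Continuous.intervalIntegrable (by fun_prop) _ _)
    (Continuous.intervalIntegrable (by fun_prop) _ _), intervalIntegral.integral_const_mul] at h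
  norm_num at h
  linarith

lemma orth {i j : ℕ} (hij : i ≠ j) : ∫ t in (-1 : ℝ)..1, p i t * p j t = 0 := by
  have h1 := int_deriv_deriv i j
  have h2 := int_deriv_deriv j i
  have e1' : ∫ t in (-1 : ℝ)..1, (1 - t ^ 2) * p' j t * p' i t =
      ∫ t in (-1 : ℝ)..1, (1 - t ^ 2) * p' i t * p' j t := by
    congr 1; ext t; ring
  have e2' : ∫ t in (-1 : ℝ)..1, p j t * p i t = ∫ t in (-1 : ℝ)..1, p i t * p j t := by
    congr 1; ext t; ring
  rw [e1', e2', h1] at h2
  have h3 : (((i : ℝ) - j) * (i + j + 1)) * ∫ t in (-1 : ℝ)..1, p i t * p j t = 0 := by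
    linear_combination h2
  have h4 : (((i : ℝ) - j) * (i + j + 1)) ≠ 0 := by
    apply mul_ne_zero
    · exact sub_ne_zero.2 (by exact_mod_cast hij)
    · positivity
  exact (mul_eq_zero.1 h3).resolve_left h4

lemma norm_sq (j : ℕ) : ∫ t in (-1 : ℝ)..1, p j t * p j t = 2 / (2 * (j : ℝ) + 1) := by
  induction j using Nat.strong_induction_on with
  | _ j ih =>
    match j with
    | 0 => norm_num
    | 1 =>
      simp only [p_one]
      have : ∫ t in (-1 : ℝ)..1, t * t = ∫ t in (-1 : ℝ)..1, t ^ 2 := by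
        congr 1; ext t; ring
      rw [this, integral_pow]; norm_num
    | (j + 2) =>
      have h1 := ih (j + 1) (by omega)
      -- (j+2) h_{j+2} = (2j+3) g_{j+1},  (2j+5) g_{j+1} = (j+2) h_{j+1}
      have hi : ∀ (a b : ℕ), IntervalIntegrable (fun t => p a t * p b t) volume (-1) 1 :=
        fun a b => Continuous.intervalIntegrable (by fun_prop) _ _
      have hi' : ∀ (a b : ℕ), IntervalIntegrable (fun t => t * p a t * p b t) volume (-1) 1 :=
        fun a b => Continuous.intervalIntegrable (by fun_prop) _ _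
      have A : ((j : ℝ) + 2) * ∫ t in (-1 : ℝ)..1, p (j + 2) t * p (j + 2) t =
          (2 * j + 3) * ∫ t in (-1 : ℝ)..1, t * p (j + 1) t * p (j + 2) t := by
        have hz := orth (show j ≠ j + 2 by omega)
        have : ∫ t in (-1 : ℝ)..1, ((j : ℝ) + 2) * (p (j + 2) t * p (j + 2) t) =
            ∫ t in (-1 : ℝ)..1, ((2 * (j : ℝ) + 3) * (t * p (j + 1) t * p (j + 2) t) -
              ((j : ℝ) + 1) * (p j t * p (j + 2) t)) := by
          congr 1; ext t; linear_combination p (j + 2) t * rec_p j t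
        rw [intervalIntegral.integral_sub ((hi' _ _).const_mul _) ((hi _ _).const_mul _),
          intervalIntegral.integral_const_mul, intervalIntegral.integral_const_mul,
          intervalIntegral.integral_const_mul, hz, mul_zero, sub_zero] at this
        exact this
      have B : (2 * (j : ℝ) + 5) * ∫ t in (-1 : ℝ)..1, t * p (j + 1) t * p (j + 2) t =
          (j + 2) * ∫ t in (-1 : ℝ)..1, p (j + 1) t * p (j + 1) t := by
        have hz := orth (show j + 3 ≠ j + 1 by omega)
        have : ∫ t in (-1 : ℝ)..1, ((j : ℝ) + 3) * (p (j + 3) t * p (j + 1) t) =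
            ∫ t in (-1 : ℝ)..1, ((2 * (j : ℝ) + 5) * (t * p (j + 1) t * p (j + 2) t) -
              ((j : ℝ) + 2) * (p (j + 1) t * p (j + 1) t)) := by
          congr 1; ext t
          have r := rec_p (j + 1) t
          push_cast at r
          linear_combination p (j + 1) t * r
        rw [intervalIntegral.integral_sub ((hi' _ _).const_mul _) ((hi _ _).const_mul _),
          intervalIntegral.integral_const_mul, intervalIntegral.integral_const_mul,
          intervalIntegral.integral_const_mul, hz, mul_zero] at this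
        linarith
      rw [h1] at B
      have c1 : ((j : ℝ) + 2) ≠ 0 := by positivity
      have c2 : (2 * (j : ℝ) + 5) ≠ 0 := by positivity
      have c3 : (2 * (j : ℝ) + 3) ≠ 0 := by positivity
      have B' : ∫ t in (-1 : ℝ)..1, t * p (j + 1) t * p (j + 2) t =
          (j + 2) * (2 / (2 * j + 3)) / (2 * j + 5) := by
        field_simp
        push_cast at B
        have c4 : (2 * ((j : ℝ) + 1) + 1) ≠ 0 := by positivity
        field_simp at B
        linarith
      rw [B'] at A
      apply mul_left_cancel₀ c1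
      rw [A]
      push_cast
      have c5 : (2 * ((j : ℝ) + 2) + 1) ≠ 0 := by positivity
      field_simp
      ring

/-! ### expansion in Legendre polynomials -/

lemma natDegree_P_le (j : ℕ) : (P j).natDegree ≤ j := by
  induction j using Nat.strong_induction_on with
  | _ j ih =>
    match j with
    | 0 => simp [P_zero]
    | 1 => simp [P_one]
    | (j + 2) =>
      have h1 := ih (j + 1) (by omega)
      have h0 := ih j (by omega)
      rw [P]
      refine (natDegree_C_mul_le _ _).trans ?_
      refine (natDegree_sub_le _ _).trans ?_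
      apply max_le
      · refine natDegree_mul_le.trans ?_
        have : (C (2 * (j : ℝ) + 3) * X).natDegree ≤ 1 :=
          (natDegree_C_mul_le _ _).trans natDegree_X_le
        omega
      · exact (natDegree_C_mul_le _ _).trans (by omega)

lemma coeff_P_pos (j : ℕ) : 0 < (P j).coeff j := by
  induction j using Nat.strong_induction_on with
  | _ j ih =>
    match j with
    | 0 => simp [P_zero]
    | 1 => simp [P_one]
    | (j + 2) =>
      have h1 := ih (j + 1) (by omega)
      have h0 : (P j).coeff (j + 2) = 0 :=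
        coeff_eq_zero_of_natDegree_lt (lt_of_le_of_lt (natDegree_P_le j) (by omega))
      rw [P, coeff_C_mul, coeff_sub, mul_assoc, coeff_C_mul, coeff_C_mul, h0,
        show j + 2 = (j + 1) + 1 from rfl, coeff_X_mul]
      have : (0 : ℝ) < 2 * j + 3 := by positivity
      have h2 : (0 : ℝ) < 1 / ((j : ℝ) + 2) := by positivity
      have := mul_pos h2 (mul_pos this h1)
      simpa using this

lemma exists_expansion (N : ℕ) (f : ℝ[X]) (hf : f.natDegree ≤ N) :
    ∃ c : ℕ → ℝ, f = ∑ j ∈ Finset.range (N + 1), C (c j) * P j := by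
  induction N generalizing f with
  | zero =>
    refine ⟨fun _ => f.coeff 0, ?_⟩
    rw [Finset.sum_range_one, P_zero, mul_one]
    exact eq_C_of_natDegree_le_zero hf
  | succ N ih =>
    set a := f.coeff (N + 1) / (P (N + 1)).coeff (N + 1) with ha
    have hne := (coeff_P_pos (N + 1)).ne'
    have hg : (f - C a * P (N + 1)).natDegree ≤ N := by
      rw [natDegree_le_iff_coeff_eq_zero]
      intro m hm
      rcases Nat.lt_or_ge (N + 1) m with h | h
      · rw [coeff_sub, coeff_C_mul, coeff_eq_zero_of_natDegree_lt (lt_of_le_of_lt hf h),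
          coeff_eq_zero_of_natDegree_lt (lt_of_le_of_lt (natDegree_P_le _) h)]
        ring
      · have : m = N + 1 := by omega
        subst this
        rw [coeff_sub, coeff_C_mul, ha]
        field_simp
        ring
    obtain ⟨c, hc⟩ := ih _ hg
    refine ⟨fun j => if j = N + 1 then a else c j, ?_⟩
    rw [Finset.sum_range_succ]
    simp only [if_true]
    have : ∑ j ∈ Finset.range (N + 1), C (if j = N + 1 then a else c j) * P j =
        ∑ j ∈ Finset.range (N + 1), C (c j) * P j := by
      refine Finset.sum_congr rfl fun j hj => ?_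
      rw [if_neg (by have := Finset.mem_range.1 hj; omega)]
    rw [this, ← hc]
    ring

/-! ### the Legendre kernel on the diagonal and the Christoffel bound -/

/-- `K n y = ∑_{j<n} (j+1/2) P_j(y)²`. -/
noncomputable def K (n : ℕ) (y : ℝ) : ℝ := ∑ j ∈ Finset.range n, ((j : ℝ) + 1 / 2) * p j y ^ 2

lemma K_pos {n : ℕ} (hn : 1 ≤ n) (y : ℝ) : 0 < K n y := by
  unfold K
  have h : (0 : ℝ) < ((0 : ℕ) + 1 / 2) * p 0 y ^ 2 := by simp
  exact lt_of_lt_of_le h (Finset.single_le_sum (f := fun j : ℕ => ((j : ℝ) + 1 / 2) * p j y ^ 2)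
    (fun i _ => by positivity) (Finset.mem_range.2 (by omega)))

/-- for `f` of degree `< n`: `f(y)² ≤ K n y ∫ f²`. -/
theorem sq_eval_le {n : ℕ} (hn : 1 ≤ n) (f : ℝ[X]) (hf : f.natDegree ≤ n - 1) (y : ℝ) :
    f.eval y ^ 2 ≤ K n y * ∫ t in (-1 : ℝ)..1, f.eval t ^ 2 := by
  obtain ⟨c, hc⟩ := exists_expansion (n - 1) f hf
  rw [Nat.sub_add_cancel hn] at hc
  have hev : ∀ t, f.eval t = ∑ j ∈ Finset.range n, c j * p j t := by
    intro t
    rw [hc, eval_finsetSum]
    simp [p]
  have hint : ∫ t in (-1 : ℝ)..1, f.eval t ^ 2 =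
      ∑ j ∈ Finset.range n, c j ^ 2 * (2 / (2 * (j : ℝ) + 1)) := by
    have h1 : ∀ t, f.eval t ^ 2 =
        ∑ i ∈ Finset.range n, ∑ j ∈ Finset.range n, c i * c j * (p i t * p j t) := by
      intro t
      rw [hev, sq, Finset.sum_mul_sum]
      refine Finset.sum_congr rfl fun i _ => Finset.sum_congr rfl fun j _ => by ring
    simp only [h1]
    rw [intervalIntegral.integral_finsetSum
      (fun i _ => Continuous.intervalIntegrable (by fun_prop) _ _)]
    refine Finset.sum_congr rfl fun i hi => ?_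
    rw [intervalIntegral.integral_finsetSum
      (fun j _ => Continuous.intervalIntegrable (by fun_prop) _ _)]
    simp only [intervalIntegral.integral_const_mul]
    rw [Finset.sum_eq_single i]
    · rw [norm_sq]; ring
    · intro j _ hj
      rw [orth hj.symm, mul_zero]
    · intro h; exact absurd hi h
  rw [hint, hev, K, mul_comm]
  have cs := Finset.sum_mul_sq_le_sq_mul_sq (Finset.range n)
    (fun j => c j * Real.sqrt (2 / (2 * (j : ℝ) + 1)))
    (fun j => Real.sqrt ((2 * (j : ℝ) + 1) / 2) * p j y)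
  have hs : ∀ j : ℕ, Real.sqrt (2 / (2 * (j : ℝ) + 1)) * Real.sqrt ((2 * (j : ℝ) + 1) / 2) = 1 := by
    intro j
    rw [← Real.sqrt_mul (by positivity)]
    have : (2 / (2 * (j : ℝ) + 1)) * ((2 * (j : ℝ) + 1) / 2) = 1 := by
      have : (2 * (j : ℝ) + 1) ≠ 0 := by positivity
      field_simp
    rw [this, Real.sqrt_one]
  calc (∑ j ∈ Finset.range n, c j * p j y) ^ 2
      = (∑ j ∈ Finset.range n, c j * Real.sqrt (2 / (2 * (j : ℝ) + 1)) *
          (Real.sqrt ((2 * (j : ℝ) + 1) / 2) * p j y)) ^ 2 := by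
        congr 1
        refine Finset.sum_congr rfl fun j _ => ?_
        linear_combination (-(c j * p j y)) * hs j
    _ ≤ _ := cs
    _ = _ := by
        congr 1
        · refine Finset.sum_congr rfl fun j _ => ?_
          rw [mul_pow, Real.sq_sqrt (by positivity)]
        · refine Finset.sum_congr rfl fun j _ => ?_
          rw [mul_pow, Real.sq_sqrt (by positivity)]
          ring

/-! ### the kernel of the space `(1-t²)Π` with weight `1/(1-t²)` -/

/-- `c_j = (2j+1)/(2j(j+1))`. -/
noncomputable def cc (j : ℕ) : ℝ := (2 * (j : ℝ) + 1) / (2 * j * (j + 1))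

/-- `Q N y = ∑_{j=1}^{N-1} c_j ((1-y²) P_j'(y))²`. -/
noncomputable def Q (N : ℕ) (y : ℝ) : ℝ :=
  ∑ j ∈ Finset.Ico 1 N, cc j * ((1 - y ^ 2) * p' j y) ^ 2

/-- `R N t y = ∑_{j=1}^{N-1} c_j P_j'(t) (1-y²) P_j'(y)`; `f_y(t) = κ √(1-t²) R(t,y)`. -/
noncomputable def R (N : ℕ) (t y : ℝ) : ℝ :=
  ∑ j ∈ Finset.Ico 1 N, cc j * p' j t * ((1 - y ^ 2) * p' j y)

/-- `R N` as a polynomial in the second variable. -/
noncomputable def Rpoly (N : ℕ) (t : ℝ) : ℝ[X] :=
  ∑ j ∈ Finset.Ico 1 N, C (cc j * p' j t) * ((1 - X ^ 2) * derivative (P j))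

lemma eval_Rpoly (N : ℕ) (t y : ℝ) : (Rpoly N t).eval y = R N t y := by
  unfold Rpoly R
  rw [eval_finsetSum]
  refine Finset.sum_congr rfl fun j _ => ?_
  simp [p', mul_assoc]

lemma natDegree_Rpoly_le (N : ℕ) (t : ℝ) : (Rpoly N t).natDegree ≤ N := by
  unfold Rpoly
  refine natDegree_sum_le_of_forall_le _ _ fun j hj => ?_
  have h1 := (Finset.mem_Ico.1 hj)
  refine (natDegree_C_mul_le _ _).trans (natDegree_mul_le.trans ?_)
  have a : (1 - X ^ 2 : ℝ[X]).natDegree ≤ 2 := by
    refine (natDegree_sub_le _ _).trans (by simp)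
  have b : (derivative (P j)).natDegree ≤ j - 1 :=
    (natDegree_derivative_le _).trans (Nat.sub_le_sub_right (natDegree_P_le j) 1)
  omega

@[fun_prop] lemma continuous_R (N : ℕ) (y : ℝ) : Continuous (fun t => R N t y) := by
  unfold R; fun_prop

lemma orth' {i j : ℕ} (hij : i ≠ j) :
    ∫ t in (-1 : ℝ)..1, (1 - t ^ 2) * p' i t * p' j t = 0 := by
  rw [int_deriv_deriv, orth hij, mul_zero]

lemma norm_sq' (j : ℕ) (hj : 1 ≤ j) :
    cc j * ∫ t in (-1 : ℝ)..1, (1 - t ^ 2) * p' j t * p' j t = 1 := by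
  rw [int_deriv_deriv, norm_sq, cc]
  have : (0 : ℝ) < j := by exact_mod_cast hj
  field_simp

/-- `∫ (1-t²) R(t,y)² dt = Q(y)`. -/
theorem norm_R (N : ℕ) (y : ℝ) :
    ∫ t in (-1 : ℝ)..1, (1 - t ^ 2) * R N t y ^ 2 = Q N y := by
  have h1 : ∀ t, (1 - t ^ 2) * R N t y ^ 2 = ∑ i ∈ Finset.Ico 1 N, ∑ j ∈ Finset.Ico 1 N,
      (cc i * ((1 - y ^ 2) * p' i y)) * (cc j * ((1 - y ^ 2) * p' j y)) *
        ((1 - t ^ 2) * p' i t * p' j t) := by
    intro t
    rw [R, sq (∑ j ∈ Finset.Ico 1 N, cc j * p' j t * ((1 - y ^ 2) * p' j y)),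
      Finset.sum_mul_sum, Finset.mul_sum]
    refine Finset.sum_congr rfl fun i _ => ?_
    rw [Finset.mul_sum]
    refine Finset.sum_congr rfl fun j _ => by ring
  simp only [h1]
  rw [intervalIntegral.integral_finsetSum
    (fun i _ => Continuous.intervalIntegrable (by fun_prop) _ _), Q]
  refine Finset.sum_congr rfl fun i hi => ?_
  rw [intervalIntegral.integral_finsetSum
    (fun j _ => Continuous.intervalIntegrable (by fun_prop) _ _)]
  simp only [intervalIntegral.integral_const_mul]
  rw [Finset.sum_eq_single i]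
  · have := norm_sq' i (Finset.mem_Ico.1 hi).1
    linear_combination (cc i * ((1 - y ^ 2) * p' i y) ^ 2) * this
  · intro j _ hj
    rw [orth' hj.symm, mul_zero]
  · intro h; exact absurd hi h

end LagMin
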