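import Pool.Agent.W_93ab53_h82.Leg

/-!
# Sharp two-sided bounds for `P_{2m}(0)²` and for the Sonin constant (MP_93ab53_an, helper82)

Write `ω_m = P_{2m}(0)² = (binom(2m,m)/4^m)²`, so `ω_{m+1} = ω_m ((2m+1)/(2m+2))²`
(lemma `p_even_zero_succ` in `Leg.lean`) and `m ω_m → 1/π` (Wallis).

* upper bound: with `φ(m) = m + 1/4 + 1/(32 (m + 1/2))` the sequence `ω_m φ(m)` is increasing,
  because `(m+1/2)² φ(m+1) ≥ (m+1)² φ(m)`; its limit is `1/π`, hence `ω_m φ(m) ≤ 1/π`.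
* lower bound: with `ψ(m) = m + 1/4 + 1/(32 (m + 1/4))` the sequence `ω_m ψ(m)` is decreasing with
  limit `1/π`, hence `ω_m ψ(m) ≥ 1/π`.

(General computation: for `φ(m) = m + 1/4 + a/(m+b)` one has
`(m+1/2)² φ(m+1) - (m+1)² φ(m) = 1/16 - a (2m² + (b+11/4) m + 1 + 3b/4)/((m+b)(m+1+b))`.)

`ee N = P_N(0)² + P_N'(0)²/((N+1/2)²+1/4)`.  For `N = 2m`: `ee N = ω_m`.
For `N = 2m+1`: `P_N(0) = 0`, `P_N'(0) = N P_{2m}(0)`, so `ee N = N² ω_m/(N²+N+1/2)`.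
-/

open Polynomial Real

namespace LagMin

/-- the Sonin constant: value at `θ = π/2` of `v² + v̇²/q`. -/
noncomputable def ee (N : ℕ) : ℝ := p N 0 ^ 2 + p' N 0 ^ 2 / (((N : ℝ) + 1 / 2) ^ 2 + 1 / 4)

lemma omega_succ (m : ℕ) :
    p (2 * (m + 1)) 0 ^ 2 = p (2 * m) 0 ^ 2 * ((2 * (m : ℝ) + 1) / (2 * m + 2)) ^ 2 := by
  have h := p_even_zero_succ m
  have h2 : (2 * (m : ℝ) + 2) ≠ 0 := by positivity
  have h3 : p (2 * (m + 1)) 0 = -((2 * (m : ℝ) + 1) * p (2 * m) 0) / (2 * (m : ℝ) + 2) := by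
    rw [eq_div_iff h2, mul_comm]
    exact h
  rw [h3]
  field_simp

lemma omega_mul_W (m : ℕ) : p (2 * m) 0 ^ 2 * Real.Wallis.W m * (2 * (m : ℝ) + 1) = 1 := by
  induction m with
  | zero => simp [Real.Wallis.W]
  | succ m ih =>
    rw [omega_succ, Real.Wallis.W_succ]
    have h1 : (2 * (m : ℝ) + 1) ≠ 0 := by positivity
    have h2 : (2 * (m : ℝ) + 2) ≠ 0 := by positivity
    have h3 : (2 * (m : ℝ) + 3) ≠ 0 := by positivity
    have h4 : (2 * ((m + 1 : ℕ) : ℝ) + 1) = 2 * (m : ℝ) + 3 := by push_cast; ring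
    rw [h4]
    have e : p (2 * m) 0 ^ 2 * ((2 * (m : ℝ) + 1) / (2 * m + 2)) ^ 2 *
        (Real.Wallis.W m * ((2 * (m : ℝ) + 2) / (2 * m + 1) * ((2 * m + 2) / (2 * m + 3)))) *
        (2 * (m : ℝ) + 3) = p (2 * m) 0 ^ 2 * Real.Wallis.W m * (2 * (m : ℝ) + 1) := by
      field_simp
    rw [e, ih]

lemma omega_eq (m : ℕ) :
    p (2 * m) 0 ^ 2 = (2 * (m : ℝ) + 1)⁻¹ * (Real.Wallis.W m)⁻¹ := by
  have h1 : (2 * (m : ℝ) + 1) ≠ 0 := by positivity
  have hW : Real.Wallis.W m ≠ 0 := (Real.Wallis.W_pos m).ne'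
  rw [← mul_inv]
  refine eq_inv_of_mul_eq_one_left ?_
  linear_combination omega_mul_W m

lemma tendsto_ratio :
    Filter.Tendsto (fun m : ℕ => (2 * (m : ℝ) + 1)⁻¹) Filter.atTop (nhds 0) := by
  refine Filter.Tendsto.inv_tendsto_atTop ?_
  refine Filter.Tendsto.atTop_add ?_ tendsto_const_nhds
  exact tendsto_natCast_atTop_atTop.const_mul_atTop two_pos

lemma tendsto_W_inv :
    Filter.Tendsto (fun m : ℕ => (Real.Wallis.W m)⁻¹) Filter.atTop (nhds (2 / π)) := by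
  have h := Real.Wallis.tendsto_W_nhds_pi_div_two.inv₀ (by positivity)
  rwa [inv_div] at h

lemma tendsto_omega_zero :
    Filter.Tendsto (fun m : ℕ => p (2 * m) 0 ^ 2) Filter.atTop (nhds 0) := by
  have h := tendsto_ratio.mul tendsto_W_inv
  rw [zero_mul] at h
  exact h.congr fun m => (omega_eq m).symm

/-- Wallis: `m ω_m → 1/π`. -/
lemma tendsto_omega :
    Filter.Tendsto (fun m : ℕ => (m : ℝ) * p (2 * m) 0 ^ 2) Filter.atTop (nhds (1 / π)) := by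
  have h1 : Filter.Tendsto (fun m : ℕ => (1 / 2 : ℝ) - (1 / 2) * (2 * (m : ℝ) + 1)⁻¹)
      Filter.atTop (nhds ((1 / 2 : ℝ) - (1 / 2) * 0)) :=
    tendsto_const_nhds.sub (tendsto_ratio.const_mul _)
  have h2 := h1.mul tendsto_W_inv
  have h3 : ((1 / 2 : ℝ) - (1 / 2) * 0) * (2 / π) = 1 / π := by
    ring
  rw [h3] at h2
  refine h2.congr fun m => ?_
  rw [omega_eq]
  have h4 : (2 * (m : ℝ) + 1) ≠ 0 := by positivity
  field_simp
  ring

/-- the limit of `ω_m (m + c_m)` for a sequence `c` with `0 ≤ c_m ≤ 1` -/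
lemma tendsto_omega_add (c : ℕ → ℝ) (h0 : ∀ m, 0 ≤ c m) (h1 : ∀ m, c m ≤ 1) :
    Filter.Tendsto (fun m : ℕ => p (2 * m) 0 ^ 2 * ((m : ℝ) + c m)) Filter.atTop
      (nhds (1 / π)) := by
  have h2 : Filter.Tendsto (fun m : ℕ => p (2 * m) 0 ^ 2 * c m) Filter.atTop (nhds 0) := by
    refine squeeze_zero (fun m => mul_nonneg (sq_nonneg _) (h0 m)) (fun m => ?_)
      tendsto_omega_zero
    exact mul_le_of_le_one_right (sq_nonneg _) (h1 m)
  have h3 := tendsto_omega.add h2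
  rw [add_zero] at h3
  refine h3.congr fun m => ?_
  ring

lemma omega_upper (m : ℕ) :
    p (2 * m) 0 ^ 2 ≤ 1 / (π * ((m : ℝ) + 1 / 4 + 1 / (32 * ((m : ℝ) + 1 / 2)))) := by
  have hmono : Monotone (fun m : ℕ =>
      p (2 * m) 0 ^ 2 * ((m : ℝ) + (1 / 4 + 1 / (32 * ((m : ℝ) + 1 / 2))))) := by
    refine monotone_nat_of_le_succ fun m => ?_
    rw [omega_succ]
    rw [mul_assoc]
    refine mul_le_mul_of_nonneg_left ?_ (sq_nonneg _)
    have hm : (0 : ℝ) ≤ m := Nat.cast_nonneg m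
    push_cast
    have h1 : (0 : ℝ) < 2 * (m : ℝ) + 2 := by positivity
    rw [div_pow, div_mul_eq_mul_div, le_div_iff₀ (by positivity)]
    have key : (2 * (m : ℝ) + 1) ^ 2 * ((m : ℝ) + 1 + (1 / 4 + 1 / (32 * ((m : ℝ) + 1 + 1 / 2)))) -
        ((m : ℝ) + (1 / 4 + 1 / (32 * ((m : ℝ) + 1 / 2)))) * (2 * (m : ℝ) + 2) ^ 2 =
        (3 / 4 * m + 1 / 8) / (8 * (((m : ℝ) + 1 / 2) * ((m : ℝ) + 3 / 2))) := by
      field_simp
      ring
    have hpos : 0 ≤ (3 / 4 * (m : ℝ) + 1 / 8) / (8 * (((m : ℝ) + 1 / 2) * ((m : ℝ) + 3 / 2))) := by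
      positivity
    linarith
  have hlim := tendsto_omega_add (fun m => 1 / 4 + 1 / (32 * ((m : ℝ) + 1 / 2)))
    (fun m => by positivity) (fun m => by
      have hm : (0 : ℝ) ≤ m := Nat.cast_nonneg m
      have : 1 / (32 * ((m : ℝ) + 1 / 2)) ≤ 1 / 16 := by
        apply one_div_le_one_div_of_le (by norm_num)
        linarith
      linarith)
  have h := hmono.ge_of_tendsto hlim m
  have hpos : 0 < (m : ℝ) + (1 / 4 + 1 / (32 * ((m : ℝ) + 1 / 2))) := by positivity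
  rw [add_assoc, le_div_iff₀ (by positivity)]
  rw [le_div_iff₀ Real.pi_pos] at h
  linarith

lemma omega_lower (m : ℕ) :
    1 / (π * ((m : ℝ) + 1 / 4 + 1 / (32 * ((m : ℝ) + 1 / 4)))) ≤ p (2 * m) 0 ^ 2 := by
  have hmono : Antitone (fun m : ℕ =>
      p (2 * m) 0 ^ 2 * ((m : ℝ) + (1 / 4 + 1 / (32 * ((m : ℝ) + 1 / 4))))) := by
    refine antitone_nat_of_succ_le fun m => ?_
    rw [omega_succ]
    rw [mul_assoc]
    refine mul_le_mul_of_nonneg_left ?_ (sq_nonneg _)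
    have hm : (0 : ℝ) ≤ m := Nat.cast_nonneg m
    push_cast
    have h1 : (0 : ℝ) < 2 * (m : ℝ) + 2 := by positivity
    rw [div_pow, div_mul_eq_mul_div, div_le_iff₀ (by positivity)]
    have key : ((m : ℝ) + (1 / 4 + 1 / (32 * ((m : ℝ) + 1 / 4)))) * (2 * (m : ℝ) + 2) ^ 2 -
        (2 * (m : ℝ) + 1) ^ 2 * ((m : ℝ) + 1 + (1 / 4 + 1 / (32 * ((m : ℝ) + 1 + 1 / 4)))) =
        (9 / 16) / (8 * (((m : ℝ) + 1 / 4) * ((m : ℝ) + 5 / 4))) := by
      field_simp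
      ring
    have hpos : 0 ≤ (9 / 16 : ℝ) / (8 * (((m : ℝ) + 1 / 4) * ((m : ℝ) + 5 / 4))) := by
      positivity
    linarith
  have hlim := tendsto_omega_add (fun m => 1 / 4 + 1 / (32 * ((m : ℝ) + 1 / 4)))
    (fun m => by positivity) (fun m => by
      have hm : (0 : ℝ) ≤ m := Nat.cast_nonneg m
      have : 1 / (32 * ((m : ℝ) + 1 / 4)) ≤ 1 / 8 := by
        apply one_div_le_one_div_of_le (by norm_num)
        linarith
      linarith)
  have h := hmono.le_of_tendsto hlim m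
  have hpos : 0 < (m : ℝ) + (1 / 4 + 1 / (32 * ((m : ℝ) + 1 / 4))) := by positivity
  rw [add_assoc, div_le_iff₀ (by positivity)]
  rw [div_le_iff₀ Real.pi_pos] at h
  linarith

/-- upper bound for the Sonin constant.  Even `N=2m`: drop the last term of `omega_upper`.
Odd `N = 2m+1` (so `m + 1/4 = (N-1/2)/2`, `m+1/2 = N/2`): the claim reduces to
`N² (N+1/2) ≤ (N - 1/2 + 1/(8N)) (N²+N+1/2)`, i.e. `N/8 - 1/8 + 1/(16N) ≥ 0`. -/
theorem ee_le (N : ℕ) : ee N ≤ 2 / (π * ((N : ℝ) + 1 / 2)) := by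
  have hpi := Real.pi_pos
  rcases Nat.even_or_odd' N with ⟨m, rfl | rfl⟩
  · have hm : (0 : ℝ) ≤ m := Nat.cast_nonneg m
    have h := omega_upper m
    unfold ee
    rw [p'_even_zero]
    have h2 : 1 / (π * ((m : ℝ) + 1 / 4 + 1 / (32 * ((m : ℝ) + 1 / 2)))) ≤
        1 / (π * ((m : ℝ) + 1 / 4)) := by
      apply one_div_le_one_div_of_le (by positivity)
      have : 0 ≤ 1 / (32 * ((m : ℝ) + 1 / 2)) := by positivity
      nlinarith
    have h3 : 2 / (π * (((2 * m : ℕ) : ℝ) + 1 / 2)) = 1 / (π * ((m : ℝ) + 1 / 4)) := by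
      push_cast
      field_simp
      ring
    rw [h3]
    have h4 : (0 : ℝ) ^ 2 / ((((2 * m : ℕ) : ℝ) + 1 / 2) ^ 2 + 1 / 4) = 0 := by simp
    rw [h4]
    linarith
  · have hm : (0 : ℝ) ≤ m := Nat.cast_nonneg m
    have h := omega_upper m
    unfold ee
    rw [p_odd_zero, p'_odd_zero]
    push_cast
    set w : ℝ := p (2 * m) 0 with hw
    have h5 : 0 < (2 * (m : ℝ) + 1 + 1 / 2) ^ 2 + 1 / 4 := by positivity
    have h6 : (0 : ℝ) ^ 2 + ((2 * (m : ℝ) + 1) * w) ^ 2 / ((2 * (m : ℝ) + 1 + 1 / 2) ^ 2 + 1 / 4) =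
        (2 * (m : ℝ) + 1) ^ 2 / ((2 * (m : ℝ) + 1 + 1 / 2) ^ 2 + 1 / 4) * w ^ 2 := by
      ring
    rw [h6]
    refine le_trans (mul_le_mul_of_nonneg_left h (by positivity)) ?_
    rw [div_mul_div_comm, mul_one, div_le_div_iff₀ (by positivity) (by positivity)]
    have key : 2 * (((2 * (m : ℝ) + 1 + 1 / 2) ^ 2 + 1 / 4) *
        (π * ((m : ℝ) + 1 / 4 + 1 / (32 * ((m : ℝ) + 1 / 2))))) -
        (2 * (m : ℝ) + 1) ^ 2 * (π * (2 * (m : ℝ) + 1 + 1 / 2)) =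
        π * ((2 * (m : ℝ) + 1) / 8 - 1 / 8 + 1 / (16 * (2 * (m : ℝ) + 1))) := by
      field_simp
      ring
    have hpos : 0 ≤ π * ((2 * (m : ℝ) + 1) / 8 - 1 / 8 + 1 / (16 * (2 * (m : ℝ) + 1))) := by
      have : 0 ≤ 1 / (16 * (2 * (m : ℝ) + 1)) := by positivity
      apply mul_nonneg hpi.le
      linarith
    linarith

/-- lower bound for the Sonin constant.  Even `N = 2m`, `ν = N+1/2 = 2(m+1/4)`:
`(ν²+1/4) ω_m ≥ (2/π)(ν²+1/4)/(ν + 1/(8ν)) ≥ (2/π) ν`.  Odd `N = 2m+1`, `μ = N - 1/2 = 2(m+1/4)`: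
`(ν²+1/4) ee N = N² ω_m ≥ (2/π) N²/(μ+1/(8μ))` and `N² - (μ+1)(μ+1/(8μ)) = 1/8 - 1/(8μ) ≥ 0` for
`μ ≥ 1`; for `N = 1` directly `N² ω_0 = 1 ≥ 3/π`. -/
theorem qee_ge (N : ℕ) :
    2 / π * ((N : ℝ) + 1 / 2) ≤ (((N : ℝ) + 1 / 2) ^ 2 + 1 / 4) * ee N := by
  have hpi := Real.pi_pos
  rcases Nat.even_or_odd' N with ⟨m, rfl | rfl⟩
  · have hm : (0 : ℝ) ≤ m := Nat.cast_nonneg m
    have h := omega_lower m
    unfold ee
    rw [p'_even_zero]
    push_cast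
    have h4 : p (2 * m) 0 ^ 2 + (0 : ℝ) ^ 2 / ((2 * (m : ℝ) + 1 / 2) ^ 2 + 1 / 4) =
        p (2 * m) 0 ^ 2 := by simp
    rw [h4]
    refine le_trans ?_ (mul_le_mul_of_nonneg_left h (by positivity))
    rw [mul_one_div, div_mul_eq_mul_div, div_le_div_iff₀ hpi (by positivity)]
    have key : ((2 * (m : ℝ) + 1 / 2) ^ 2 + 1 / 4) * π -
        2 * (2 * (m : ℝ) + 1 / 2) * (π * ((m : ℝ) + 1 / 4 + 1 / (32 * ((m : ℝ) + 1 / 4)))) =
        π / 8 := by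
      field_simp
      ring
    linarith
  · rcases Nat.eq_zero_or_pos m with rfl | hm1
    · unfold ee
      simp only [Nat.mul_zero, zero_add, p_one, p'_one, Nat.cast_one]
      have h3 := Real.pi_gt_three
      have h5 : 2 / π * (1 + 1 / 2) ≤ 1 := by
        rw [div_mul_eq_mul_div, div_le_one hpi]
        linarith
      refine le_trans h5 ?_
      norm_num
    · have hm : (1 : ℝ) ≤ m := by exact_mod_cast hm1
      have h := omega_lower m
      unfold ee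
      rw [p_odd_zero, p'_odd_zero]
      push_cast
      set w : ℝ := p (2 * m) 0 with hw
      have h5 : 0 < (2 * (m : ℝ) + 1 + 1 / 2) ^ 2 + 1 / 4 := by positivity
      have h6 : ((2 * (m : ℝ) + 1 + 1 / 2) ^ 2 + 1 / 4) * ((0 : ℝ) ^ 2 +
          ((2 * (m : ℝ) + 1) * w) ^ 2 / ((2 * (m : ℝ) + 1 + 1 / 2) ^ 2 + 1 / 4)) =
          (2 * (m : ℝ) + 1) ^ 2 * w ^ 2 := by
        field_simp
        ring
      rw [h6]
      refine le_trans ?_ (mul_le_mul_of_nonneg_left h (by positivity))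
      rw [mul_one_div, div_mul_eq_mul_div, div_le_div_iff₀ hpi (by positivity)]
      have key : (2 * (m : ℝ) + 1) ^ 2 * π - 2 * (2 * (m : ℝ) + 1 + 1 / 2) *
          (π * ((m : ℝ) + 1 / 4 + 1 / (32 * ((m : ℝ) + 1 / 4)))) =
          π * (1 / 8 - 1 / (8 * (2 * (m : ℝ) + 1 / 2))) := by
        field_simp
        ring
      have hpos : 0 ≤ π * (1 / 8 - 1 / (8 * (2 * (m : ℝ) + 1 / 2))) := by
        have : 1 / (8 * (2 * (m : ℝ) + 1 / 2)) ≤ 1 / 8 := by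
          apply one_div_le_one_div_of_le (by norm_num)
          linarith
        apply mul_nonneg hpi.le
        linarith
      linarith

end LagMin
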