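import Pool.Agent.W_93ab53_h82.CD
import Pool.Agent.W_93ab53_h82.Wal

/-!
# Sonin functions of the Legendre polynomials (MP_93ab53_an, helper82)
-/

open Polynomial Real

namespace LagMin

/-- `w = y p - 2 (1-y²) p'` -/
noncomputable def w (N : ℕ) (y : ℝ) : ℝ := y * p N y - 2 * (1 - y ^ 2) * p' N y

lemma hasDerivAt_p_cos (N : ℕ) (θ : ℝ) :
    HasDerivAt (fun θ => p N (cos θ)) (-(sin θ) * p' N (cos θ)) θ := by
  have h := (hasDerivAt_p N (cos θ)).comp θ (hasDerivAt_cos θ)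
  refine h.congr_deriv ?_
  ring

lemma hasDerivAt_w (N : ℕ) (y : ℝ) :
    HasDerivAt (w N) ((2 * ((N : ℝ) + 1 / 2) ^ 2 + 1 / 2) * p N y + y * p' N y) y := by
  have h := ((hasDerivAt_id y).mul (hasDerivAt_p N y)).sub
    (((((hasDerivAt_id y).pow 2).const_sub 1).const_mul 2).mul (hasDerivAt_p' N y))
  have h2 : w N = fun y => id y * p N y - 2 * (1 - id y ^ 2) * p' N y := by
    ext y; simp [w]
  rw [h2]
  refine h.congr_deriv ?_
  have o := ode N y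
  simp only [id, Pi.pow_apply]
  push_cast
  simp only [pow_one, mul_one]
  linear_combination (-2) * o

lemma hasDerivAt_w_cos (N : ℕ) (θ : ℝ) :
    HasDerivAt (fun θ => w N (cos θ))
      (-(sin θ) * ((2 * ((N : ℝ) + 1 / 2) ^ 2 + 1 / 2) * p N (cos θ) +
        cos θ * p' N (cos θ))) θ := by
  have h := (hasDerivAt_w N (cos θ)).comp θ (hasDerivAt_cos θ)
  refine h.congr_deriv ?_
  ring

lemma w_sq_neg (N : ℕ) (y : ℝ) : w N (-y) ^ 2 = w N y ^ 2 := by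
  unfold w
  rw [p_neg, p'_neg, pow_succ]
  have h : ((-1 : ℝ) ^ N) ^ 2 = 1 := by
    rw [← pow_mul, mul_comm, pow_mul]; norm_num
  linear_combination ((y * p N y - 2 * (1 - y ^ 2) * p' N y) ^ 2) * h

lemma w_zero_sq (N : ℕ) : w N 0 ^ 2 = 4 * p' N 0 ^ 2 := by
  unfold w; ring

/-- the function `G₂` on `(0,π)` -/
noncomputable def G2 (N : ℕ) (θ : ℝ) : ℝ :=
  sin θ * p N (cos θ) ^ 2 +
      sin θ * w N (cos θ) ^ 2 / (4 * sin θ ^ 2 * ((N : ℝ) + 1 / 2) ^ 2 + 1)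

lemma hasDerivAt_G2 (N : ℕ) (θ : ℝ) :
    HasDerivAt (G2 N) (2 * cos θ * w N (cos θ) ^ 2 /
      (4 * sin θ ^ 2 * ((N : ℝ) + 1 / 2) ^ 2 + 1) ^ 2) θ := by
  have hD : (4 * sin θ ^ 2 * ((N : ℝ) + 1 / 2) ^ 2 + 1) ≠ 0 := by positivity
  have h1 := (hasDerivAt_sin θ).mul ((hasDerivAt_p_cos N θ).pow 2)
  have h2 := ((hasDerivAt_sin θ).mul ((hasDerivAt_w_cos N θ).pow 2)).div
    (((((hasDerivAt_sin θ).pow 2).const_mul 4).mul_const (((N : ℝ) + 1 / 2) ^ 2)).add_const 1) hD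
  have h := h1.add h2
  refine h.congr_deriv ?_
  simp only [Pi.pow_apply, Pi.mul_apply]
  push_cast
  simp only [pow_one]
  have hw : w N (cos θ) = cos θ * p N (cos θ) - 2 * sin θ ^ 2 * p' N (cos θ) := by
    unfold w; rw [Real.sin_sq]
  have hc : cos θ ^ 2 = 1 - sin θ ^ 2 := by
    have := Real.sin_sq_add_cos_sq θ
    linarith
  rw [hw]
  set a := p N (cos θ)
  set b := p' N (cos θ)
  set s := sin θ
  set c := cos θ
  set ν : ℝ := (N : ℝ) + 1 / 2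
  set D : ℝ := 4 * s ^ 2 * ν ^ 2 + 1 with hDdef
  have key : (c * a ^ 2 + s * (2 * a * (-s * b))) * D ^ 2 +
      ((c * (c * a - 2 * s ^ 2 * b) ^ 2 +
        s * (2 * (c * a - 2 * s ^ 2 * b) * (-s * ((2 * ν ^ 2 + 1 / 2) * a + c * b)))) * D -
        s * (c * a - 2 * s ^ 2 * b) ^ 2 * (4 * (2 * s * c) * ν ^ 2)) =
      2 * c * (c * a - 2 * s ^ 2 * b) ^ 2 := by
    rw [hDdef]
    linear_combination
      (-((c * a - 2 * s ^ 2 * b) * (4 * s ^ 2 * ν ^ 2 + 1) * a)) * hc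
  rw [← key]
  field_simp

/-- `s (p² + w²/(4 s² ν² + 1)) ≤ ee N` on `(0,π)`. -/
theorem G2_le (N : ℕ) {θ : ℝ} (h0 : 0 < θ) (h1 : θ < π) :
    sin θ * p N (cos θ) ^ 2 +
      sin θ * w N (cos θ) ^ 2 / (4 * sin θ ^ 2 * ((N : ℝ) + 1 / 2) ^ 2 + 1) ≤ ee N := by
  wlog h : θ ≤ π / 2 with H
  · push Not at h
    have := H N (θ := π - θ) (by linarith) (by linarith) (by linarith)
    rwa [sin_pi_sub, cos_pi_sub, p_sq_neg, w_sq_neg] at this
  have hmono : MonotoneOn (G2 N) (Set.Icc 0 (π / 2)) := by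
    apply monotoneOn_of_deriv_nonneg (convex_Icc _ _)
    · exact fun t _ => (hasDerivAt_G2 N t).continuousAt.continuousWithinAt
    · exact fun t _ => (hasDerivAt_G2 N t).differentiableAt.differentiableWithinAt
    · intro t ht
      rw [interior_Icc] at ht
      rw [(hasDerivAt_G2 N t).deriv]
      have : 0 ≤ cos t := cos_nonneg_of_mem_Icc ⟨by linarith [ht.1, pi_pos], ht.2.le⟩
      positivity
  have := hmono ⟨h0.le, h⟩ ⟨by positivity, le_refl _⟩ h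
  unfold G2 at this
  rw [sin_pi_div_two, cos_pi_div_two, w_zero_sq] at this
  refine this.trans (le_of_eq ?_)
  unfold ee
  have : ((N : ℝ) + 1 / 2) ^ 2 + 1 / 4 ≠ 0 := by positivity
  have : 4 * ((N : ℝ) + 1 / 2) ^ 2 + 1 ≠ 0 := by positivity
  field_simp

/-- the function `s G₁ / s`: `G₁ = ν² s p² + (p² + w²)/(4 s)` -/
noncomputable def G1 (N : ℕ) (θ : ℝ) : ℝ :=
  ((N : ℝ) + 1 / 2) ^ 2 * sin θ * p N (cos θ) ^ 2 +
    (p N (cos θ) ^ 2 + w N (cos θ) ^ 2) / (4 * sin θ)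

lemma hasDerivAt_G1 (N : ℕ) {θ : ℝ} (hs : sin θ ≠ 0) :
    HasDerivAt (G1 N) (-(cos θ * p N (cos θ) ^ 2) / (2 * sin θ ^ 2)) θ := by
  have h1 := ((hasDerivAt_sin θ).const_mul (((N : ℝ) + 1 / 2) ^ 2)).mul
    ((hasDerivAt_p_cos N θ).pow 2)
  have h2 := (((hasDerivAt_p_cos N θ).pow 2).add ((hasDerivAt_w_cos N θ).pow 2)).div
    ((hasDerivAt_sin θ).const_mul 4) (by simpa using hs)
  have h := h1.add h2
  refine h.congr_deriv ?_
  simp only [Pi.pow_apply, Pi.add_apply]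
  push_cast
  simp only [pow_one]
  have hw : w N (cos θ) = cos θ * p N (cos θ) - 2 * sin θ ^ 2 * p' N (cos θ) := by
    unfold w; rw [Real.sin_sq]
  have hc : cos θ ^ 2 = 1 - sin θ ^ 2 := by
    have := Real.sin_sq_add_cos_sq θ
    linarith
  rw [hw]
  set a := p N (cos θ)
  set b := p' N (cos θ)
  set s := sin θ
  set c := cos θ
  set ν : ℝ := (N : ℝ) + 1 / 2
  have key : (ν ^ 2 * c * a ^ 2 + ν ^ 2 * s * (2 * a * (-s * b))) * (4 * s) ^ 2 +
      ((2 * a * (-s * b) + 2 * (c * a - 2 * s ^ 2 * b) *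
        (-s * ((2 * ν ^ 2 + 1 / 2) * a + c * b))) * (4 * s) -
        (a ^ 2 + (c * a - 2 * s ^ 2 * b) ^ 2) * (4 * c)) = -(c * a ^ 2) * 8 := by
    linear_combination (-4 * (c * a - 2 * s ^ 2 * b) * a) * hc
  have : -(c * a ^ 2) / (2 * s ^ 2) = -(c * a ^ 2) * 8 / (4 * s) ^ 2 := by
    field_simp; ring
  rw [this, ← key]
  field_simp

/-- `s q₀ e ≤ ν² s² p² + (p² + w²)/4` on `[0,π]`. -/
theorem sG1_ge (N : ℕ) {θ : ℝ} (h0 : 0 ≤ θ) (h1 : θ ≤ π) :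
    sin θ * ((((N : ℝ) + 1 / 2) ^ 2 + 1 / 4) * ee N) ≤
      ((N : ℝ) + 1 / 2) ^ 2 * sin θ ^ 2 * p N (cos θ) ^ 2 +
        (p N (cos θ) ^ 2 + w N (cos θ) ^ 2) / 4 := by
  wlog h : θ ≤ π / 2 with H
  · push Not at h
    have := H N (θ := π - θ) (by linarith) (by linarith) (by linarith)
    rwa [sin_pi_sub, cos_pi_sub, p_sq_neg, w_sq_neg] at this
  rcases eq_or_lt_of_le h0 with rfl | h0'
  · rw [sin_zero]; nlinarith [sq_nonneg (p N (cos 0)), sq_nonneg (w N (cos 0))]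
  have hanti : AntitoneOn (G1 N) (Set.Icc θ (π / 2)) := by
    have hs : ∀ t ∈ Set.Icc θ (π / 2), sin t ≠ 0 := fun t ht =>
      (sin_pos_of_pos_of_lt_pi (by linarith [ht.1]) (by linarith [ht.2, pi_pos])).ne'
    apply antitoneOn_of_deriv_nonpos (convex_Icc _ _)
    · exact fun t ht => (hasDerivAt_G1 N (hs t ht)).continuousAt.continuousWithinAt
    · exact fun t ht => (hasDerivAt_G1 N
        (hs t (interior_subset ht))).differentiableAt.differentiableWithinAt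
    · intro t ht
      rw [(hasDerivAt_G1 N (hs t (interior_subset ht))).deriv]
      rw [interior_Icc] at ht
      have hc : 0 ≤ cos t := cos_nonneg_of_mem_Icc ⟨by linarith [ht.1, pi_pos], ht.2.le⟩
      have : 0 ≤ cos t * p N (cos t) ^ 2 / (2 * sin t ^ 2) := by positivity
      rw [neg_div]; linarith
  have hle := hanti ⟨le_refl _, h⟩ ⟨h, le_refl _⟩ h
  unfold G1 at hle
  rw [sin_pi_div_two, cos_pi_div_two, w_zero_sq] at hle
  have hspos : 0 < sin θ := sin_pos_of_pos_of_lt_pi h0' (by linarith [pi_pos])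
  have e : (((N : ℝ) + 1 / 2) ^ 2 + 1 / 4) * ee N =
      ((N : ℝ) + 1 / 2) ^ 2 * 1 * p N 0 ^ 2 + (p N 0 ^ 2 + 4 * p' N 0 ^ 2) / (4 * 1) := by
    unfold ee
    have : ((N : ℝ) + 1 / 2) ^ 2 + 1 / 4 ≠ 0 := by positivity
    field_simp
    ring
  rw [e]
  have h3 := mul_le_mul_of_nonneg_left hle hspos.le
  refine h3.trans (le_of_eq ?_)
  field_simp

/-- `s p² ≤ ee N` on `[0,π]`. -/
theorem s_p_sq_le (N : ℕ) {θ : ℝ} (h0 : 0 ≤ θ) (h1 : θ ≤ π) :
    sin θ * p N (cos θ) ^ 2 ≤ ee N := by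
  have hee : 0 ≤ ee N := by unfold ee; positivity
  rcases eq_or_lt_of_le h0 with rfl | h0'
  · simpa using hee
  rcases eq_or_lt_of_le h1 with rfl | h1'
  · simpa using hee
  have h := G2_le N h0' h1'
  have hs := sin_nonneg_of_nonneg_of_le_pi h0 h1
  have : 0 ≤ sin θ * w N (cos θ) ^ 2 / (4 * sin θ ^ 2 * ((N : ℝ) + 1 / 2) ^ 2 + 1) := by
    positivity
  linarith

end LagMin
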