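import Pool.Agent.W_93ab53_h82.Cert
import Pool.Agent.W_93ab53_h82.CD
import Pool.Agent.W_93ab53_h82.Sonin

/-!
# The trace `A N` from below (MP_93ab53_an, helper82)

Notation: `y = cos θ`, `s = sin θ`, `ν = N + 1/2`, `w(y) = y p - 2(1-y²)p'`
(`p = p N y`, `p' = p' N y`), `Ṗ = dp(cos θ)/dθ = - s p'`.

* `A_eq`: substitute `t = cos θ`: `A N = ∫_0^π Q N (cos θ) dθ`, because
  `√(1-cos²θ) R(cos θ, cos θ) sin θ = ∑ c_j (s² p_j')² = Q`.
* `sG1_ge` (from `Sonin.lean`, extended to `[0,π]` by parity, at `θ=0,π` trivial):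
  `s · q₀ e ≤ ν² s² p² + (p² + w²)/4`, where `q₀ e = ((N+1/2)²+1/4) * ee N`.
* Exact pointwise identity (use `Q_closed`, `ode`; checked by hand), `η = 1/2 - 1/(4N)`:
  `Q = η (ν² s² p² + (p²+w²)/4) + (1/2+1/(2N)) s² p² - (1/2 + 1/(8N)) p² + W₀'(θ)`,
  `W₀(θ) = (1/(4N)) s³ p p' + (1/4 + 1/(4N)) s cos θ p²`  (arguments `cos θ`), `W₀(0) = W₀(π) = 0`.
  [In the notation `P(θ) = p N (cos θ)`: `W₀ = -(1/4N) s² P Ṗ + (1/4+1/4N) s cos θ P²`,
  `w² = (cos θ P + 2 s Ṗ)²`.]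
  Integrate over `[0,π]` and drop the nonnegative term `(1/2+1/(2N)) s² p²`:
  `A N ≥ 2 η q₀ e - (1/2+1/(8N)) ∫_0^π p² dθ ≥ (1 - 1/(2N)) (2/π) ν - (1/2+1/(8N)) B₀`
  by `qee_ge`.
* `B0_le`: `p² ≤ 1` and `s p² ≤ e ≤ 2/(πν) =: δ` (from `Sonin.lean`), by parity
  `B₀ = 2 ∫_0^{π/2} p²`, so `B₀ ≤ 2(δ + δ ∫_δ^{π/2} dθ/sin θ) ≤ 2δ(1 + log(2/δ))`, as
  `∫_δ^{π/2} dθ/sin θ = -log tan(δ/2) ≤ log(2/δ)`.
-/

open Polynomial MeasureTheory intervalIntegral Real

namespace LagMin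

theorem A_eq (N : ℕ) : A N = ∫ θ in (0 : ℝ)..π, Q N (cos θ) := by
  have hRc : Continuous (fun t => R N t t) := by
    unfold R
    fun_prop
  have hc : Continuous (fun t : ℝ => Real.sqrt (1 - t ^ 2) * R N t t) := by
    have h1 : Continuous (fun t : ℝ => Real.sqrt (1 - t ^ 2)) := by fun_prop
    exact h1.mul hRc
  have h := intervalIntegral.integral_comp_mul_deriv (a := 0) (b := π)
    (f := cos) (f' := fun θ => - sin θ) (g := fun t : ℝ => Real.sqrt (1 - t ^ 2) * R N t t)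
    (fun x _ => hasDerivAt_cos x) (by fun_prop) hc
  rw [cos_zero, cos_pi] at h
  have h2 : A N = - ∫ u in (1 : ℝ)..(-1), Real.sqrt (1 - u ^ 2) * R N u u := by
    unfold A
    rw [intervalIntegral.integral_symm]
  rw [h2, ← h, ← intervalIntegral.integral_neg]
  apply intervalIntegral.integral_congr
  intro θ hθ
  rw [Set.uIcc_of_le pi_pos.le] at hθ
  have hs : 0 ≤ sin θ := sin_nonneg_of_nonneg_of_le_pi hθ.1 hθ.2
  have hsq : Real.sqrt (1 - cos θ ^ 2) = sin θ := by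
    rw [← sin_sq, Real.sqrt_sq hs]
  simp only [Function.comp]
  rw [hsq]
  have h3 : sin θ ^ 2 = 1 - cos θ ^ 2 := sin_sq θ
  have h4 : sin θ ^ 2 * R N (cos θ) (cos θ) = Q N (cos θ) := by
    unfold R Q
    rw [Finset.mul_sum]
    refine Finset.sum_congr rfl fun j _ => ?_
    rw [h3]
    ring
  rw [← h4]
  ring

lemma int_one_div_sin {δ : ℝ} (h0 : 0 < δ) (h1 : δ < π / 2) :
    ∫ θ in δ..(π - δ), 1 / sin θ ≤ 2 * log (2 / δ) := by
  have hle : δ ≤ π - δ := by linarith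
  have hder : ∀ θ ∈ Set.uIcc δ (π - δ),
      HasDerivAt (fun θ => log (sin (θ / 2)) - log (cos (θ / 2))) (1 / sin θ) θ := by
    intro θ hθ
    rw [Set.uIcc_of_le hle] at hθ
    have hp := pi_pos
    have ha : 0 < sin (θ / 2) := sin_pos_of_pos_of_lt_pi (by linarith [hθ.1]) (by linarith [hθ.2])
    have hb : 0 < cos (θ / 2) :=
      cos_pos_of_mem_Ioo ⟨by linarith [hθ.1], by linarith [hθ.2]⟩
    have hd : HasDerivAt (fun θ : ℝ => θ / 2) (1 / 2) θ := (hasDerivAt_id θ).div_const 2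
    have a0 : HasDerivAt (fun θ : ℝ => sin (θ / 2)) (cos (θ / 2) * (1 / 2)) θ := hd.sin
    have b0 : HasDerivAt (fun θ : ℝ => cos (θ / 2)) (-sin (θ / 2) * (1 / 2)) θ := hd.cos
    have a := a0.log ha.ne'
    have b := b0.log hb.ne'
    refine (a.sub b).congr_deriv ?_
    have h2 : sin θ = 2 * sin (θ / 2) * cos (θ / 2) := by
      rw [← sin_two_mul]
      congr 1
      ring
    have h3 := sin_sq_add_cos_sq (θ / 2)
    rw [h2]
    field_simp
    linarith
  have hcont : ContinuousOn (fun θ => 1 / sin θ) (Set.uIcc δ (π - δ)) := by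
    intro θ hθ
    rw [Set.uIcc_of_le hle] at hθ
    have hs : 0 < sin θ := sin_pos_of_pos_of_lt_pi (by linarith [hθ.1]) (by linarith [hθ.2])
    exact (continuousAt_const.div continuous_sin.continuousAt hs.ne').continuousWithinAt
  rw [integral_eq_sub_of_hasDerivAt hder hcont.intervalIntegrable]
  have e1 : sin ((π - δ) / 2) = cos (δ / 2) := by
    rw [show (π - δ) / 2 = π / 2 - δ / 2 by ring, sin_pi_div_two_sub]
  have e2 : cos ((π - δ) / 2) = sin (δ / 2) := by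
    rw [show (π - δ) / 2 = π / 2 - δ / 2 by ring, cos_pi_div_two_sub]
  rw [e1, e2]
  have ha : 0 < sin (δ / 2) := sin_pos_of_pos_of_lt_pi (by linarith) (by linarith [pi_pos])
  have hb : 0 < cos (δ / 2) := cos_pos_of_mem_Ioo ⟨by linarith, by linarith⟩
  have ht := lt_tan (x := δ / 2) (by linarith) (by linarith)
  rw [tan_eq_sin_div_cos] at ht
  have hl : log (δ / 2) ≤ log (sin (δ / 2) / cos (δ / 2)) :=
    log_le_log (by linarith) ht.le
  rw [log_div ha.ne' hb.ne'] at hl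
  have hl2 : log (2 / δ) = - log (δ / 2) := by
    rw [← log_inv, inv_div]
  rw [hl2]
  linarith

theorem B0_le (N : ℕ) (hN : 1 ≤ N) :
    ∫ θ in (0 : ℝ)..π, p N (cos θ) ^ 2 ≤
      4 / (π * ((N : ℝ) + 1 / 2)) * (1 + log (π * ((N : ℝ) + 1 / 2))) := by
  have hN1 : (1 : ℝ) ≤ N := by exact_mod_cast hN
  have hp3 := pi_gt_three
  have hpi := pi_pos
  set X : ℝ := π * ((N : ℝ) + 1 / 2) with hX
  have hX4 : 4 < X := by
    rw [hX]
    nlinarith
  set δ : ℝ := 2 / X with hδ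
  have hδ0 : 0 < δ := by positivity
  have hδ1 : δ < 1 / 2 := by
    rw [hδ, div_lt_iff₀ (by linarith)]
    linarith
  have hδπ : δ < π / 2 := by linarith
  have hδX : 2 / δ = X := by
    rw [hδ]
    field_simp
  have hcont : Continuous (fun θ : ℝ => p N (cos θ) ^ 2) :=
    ((continuous_p N).comp continuous_cos).pow 2
  have hi : ∀ a b : ℝ, IntervalIntegrable (fun θ : ℝ => p N (cos θ) ^ 2) volume a b :=
    fun a b => hcont.intervalIntegrable _ _
  have hp1 : ∀ θ : ℝ, p N (cos θ) ^ 2 ≤ 1 := fun θ =>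
    p_sq_le_one N ⟨neg_one_le_cos θ, cos_le_one θ⟩
  have hp2 : ∀ θ : ℝ, 0 < θ → θ < π → p N (cos θ) ^ 2 ≤ δ * (1 / sin θ) := by
    intro θ h0 h1
    have hs : 0 < sin θ := sin_pos_of_pos_of_lt_pi h0 h1
    have g := G2_le N h0 h1
    have e := ee_le N
    have hq : 0 ≤ sin θ * w N (cos θ) ^ 2 / (4 * sin θ ^ 2 * ((N : ℝ) + 1 / 2) ^ 2 + 1) := by
      positivity
    rw [mul_one_div, le_div_iff₀ hs]
    have : ee N ≤ δ := e
    linarith
  have hA : ∫ θ in (0 : ℝ)..δ, p N (cos θ) ^ 2 ≤ δ := by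
    have h := intervalIntegral.integral_mono_on (a := 0) (b := δ) hδ0.le (hi 0 δ)
      (intervalIntegrable_const (c := (1 : ℝ))) (fun θ _ => hp1 θ)
    rw [intervalIntegral.integral_const] at h
    simpa using h
  have hC : ∫ θ in (π - δ)..π, p N (cos θ) ^ 2 ≤ δ := by
    have h := intervalIntegral.integral_mono_on (a := π - δ) (b := π) (by linarith) (hi _ _)
      (intervalIntegrable_const (c := (1 : ℝ))) (fun θ _ => hp1 θ)
    rw [intervalIntegral.integral_const] at h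
    simpa using h
  have hB : ∫ θ in δ..(π - δ), p N (cos θ) ^ 2 ≤ δ * (2 * log (2 / δ)) := by
    have hle : δ ≤ π - δ := by linarith
    have hcs : ContinuousOn (fun θ => δ * (1 / sin θ)) (Set.uIcc δ (π - δ)) := by
      intro θ hθ
      rw [Set.uIcc_of_le hle] at hθ
      have hs : 0 < sin θ := sin_pos_of_pos_of_lt_pi (by linarith [hθ.1]) (by linarith [hθ.2])
      exact (continuousAt_const.mul
        (continuousAt_const.div continuous_sin.continuousAt hs.ne')).continuousWithinAt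
    have h := intervalIntegral.integral_mono_on (a := δ) (b := π - δ) hle (hi _ _)
      hcs.intervalIntegrable
      (fun θ hθ => hp2 θ (by linarith [hθ.1]) (by linarith [hθ.2]))
    rw [intervalIntegral.integral_const_mul] at h
    exact h.trans (mul_le_mul_of_nonneg_left (int_one_div_sin hδ0 hδπ) hδ0.le)
  have hsum : ∫ θ in (0 : ℝ)..π, p N (cos θ) ^ 2 =
      (∫ θ in (0 : ℝ)..δ, p N (cos θ) ^ 2) + (∫ θ in δ..(π - δ), p N (cos θ) ^ 2) +
        ∫ θ in (π - δ)..π, p N (cos θ) ^ 2 := by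
    rw [integral_add_adjacent_intervals (hi _ _) (hi _ _),
      integral_add_adjacent_intervals (hi _ _) (hi _ _)]
  rw [hsum]
  rw [hδX] at hB
  have e4 : 4 / X = 2 * δ := by rw [hδ]; ring
  rw [e4]
  linarith

/-- the total derivative term -/
noncomputable def W0 (N : ℕ) (θ : ℝ) : ℝ :=
  1 / (4 * (N : ℝ)) * (sin θ ^ 3 * (p N (cos θ) * p' N (cos θ))) +
    (1 / 4 + 1 / (4 * (N : ℝ))) * (sin θ * cos θ * p N (cos θ) ^ 2)

/-- its derivative, written without `p''` -/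
noncomputable def W0' (N : ℕ) (θ : ℝ) : ℝ :=
  1 / (4 * (N : ℝ)) * (3 * sin θ ^ 2 * cos θ * (p N (cos θ) * p' N (cos θ)) -
      sin θ ^ 4 * p' N (cos θ) ^ 2 -
      sin θ ^ 2 * p N (cos θ) * (2 * cos θ * p' N (cos θ) - (N : ℝ) * (N + 1) * p N (cos θ))) +
    (1 / 4 + 1 / (4 * (N : ℝ))) * ((cos θ ^ 2 - sin θ ^ 2) * p N (cos θ) ^ 2 -
      2 * sin θ ^ 2 * cos θ * (p N (cos θ) * p' N (cos θ)))

lemma hasDerivAt_W0 (N : ℕ) (θ : ℝ) : HasDerivAt (W0 N) (W0' N θ) θ := by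
  have hP : HasDerivAt (fun θ => p N (cos θ)) (p' N (cos θ) * (-sin θ)) θ :=
    (hasDerivAt_p N (cos θ)).comp θ (hasDerivAt_cos θ)
  have hP' : HasDerivAt (fun θ => p' N (cos θ)) (p'' N (cos θ) * (-sin θ)) θ :=
    (hasDerivAt_p' N (cos θ)).comp θ (hasDerivAt_cos θ)
  have a := (((hasDerivAt_sin θ).pow 3).mul (hP.mul hP')).const_mul (1 / (4 * (N : ℝ)))
  have b := (((hasDerivAt_sin θ).mul (hasDerivAt_cos θ)).mul (hP.pow 2)).const_mul
    (1 / 4 + 1 / (4 * (N : ℝ)))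
  refine (a.add b).congr_deriv ?_
  have o := ode N (cos θ)
  have hs := sin_sq θ
  rw [← hs] at o
  unfold W0'
  simp only [Pi.mul_apply, Pi.pow_apply]
  push_cast
  linear_combination (-(1 / (4 * (N : ℝ))) * sin θ ^ 2 * p N (cos θ)) * o

lemma Q_identity (N : ℕ) (hN : 1 ≤ N) (θ : ℝ) :
    Q N (cos θ) = (1 / 2 - 1 / (4 * (N : ℝ))) * (((N : ℝ) + 1 / 2) ^ 2 * sin θ ^ 2 *
      p N (cos θ) ^ 2 + (p N (cos θ) ^ 2 + w N (cos θ) ^ 2) / 4) +
      (1 / 2 + 1 / (2 * (N : ℝ))) * (sin θ ^ 2 * p N (cos θ) ^ 2) -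
      (1 / 2 + 1 / (8 * (N : ℝ))) * p N (cos θ) ^ 2 + W0' N θ := by
  have hN1 : (N : ℝ) ≠ 0 := by positivity
  rw [Q_closed N hN]
  unfold W0' w
  have hs := sin_sq θ
  have h4 : sin θ ^ 4 = (1 - cos θ ^ 2) ^ 2 := by rw [← hs]; ring
  rw [h4, hs]
  field_simp
  ring

theorem A_ge (N : ℕ) (hN : 1 ≤ N) :
    (1 - 1 / (2 * (N : ℝ))) * (2 / π * ((N : ℝ) + 1 / 2)) -
      (1 / 2 + 1 / (8 * (N : ℝ))) * ∫ θ in (0 : ℝ)..π, p N (cos θ) ^ 2 ≤ A N := by
  have hN1 : (1 : ℝ) ≤ N := by exact_mod_cast hN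
  have hη : 0 ≤ 1 / 2 - 1 / (4 * (N : ℝ)) := by
    have : 1 / (4 * (N : ℝ)) ≤ 1 / 4 := by
      apply one_div_le_one_div_of_le (by norm_num)
      linarith
    linarith
  have cP : Continuous (fun θ : ℝ => p N (cos θ)) := (continuous_p N).comp continuous_cos
  have cP' : Continuous (fun θ : ℝ => p' N (cos θ)) := (continuous_p' N).comp continuous_cos
  have cW' : Continuous (W0' N) := by
    unfold W0'
    fun_prop
  have hW : ∫ θ in (0 : ℝ)..π, W0' N θ = 0 := by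
    rw [integral_eq_sub_of_hasDerivAt (fun θ _ => hasDerivAt_W0 N θ)
      (cW'.intervalIntegrable _ _)]
    unfold W0
    simp
  have hpt : ∀ θ ∈ Set.Icc (0 : ℝ) π,
      (1 / 2 - 1 / (4 * (N : ℝ))) * (sin θ * ((((N : ℝ) + 1 / 2) ^ 2 + 1 / 4) * ee N)) -
        (1 / 2 + 1 / (8 * (N : ℝ))) * p N (cos θ) ^ 2 + W0' N θ ≤ Q N (cos θ) := by
    intro θ hθ
    rw [Q_identity N hN]
    have h1 := mul_le_mul_of_nonneg_left (sG1_ge N hθ.1 hθ.2) hη
    have h2 : 0 ≤ (1 / 2 + 1 / (2 * (N : ℝ))) * (sin θ ^ 2 * p N (cos θ) ^ 2) := by positivity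
    linarith
  have hQc : Continuous (fun θ : ℝ => Q N (cos θ)) := by
    unfold Q
    fun_prop
  have h := intervalIntegral.integral_mono_on (a := 0) (b := π) (μ := volume) pi_pos.le
    (Continuous.intervalIntegrable (by fun_prop) _ _) (hQc.intervalIntegrable _ _) hpt
  rw [A_eq]
  refine le_trans ?_ h
  rw [intervalIntegral.integral_add (Continuous.intervalIntegrable (by fun_prop) _ _)
    (cW'.intervalIntegrable _ _), hW, add_zero,
    intervalIntegral.integral_sub (Continuous.intervalIntegrable (by fun_prop) _ _)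
    (Continuous.intervalIntegrable (by fun_prop) _ _),
    intervalIntegral.integral_const_mul, intervalIntegral.integral_const_mul,
    intervalIntegral.integral_mul_const, integral_sin]
  rw [cos_zero, cos_pi]
  have h3 := mul_le_mul_of_nonneg_left (qee_ge N) hη
  have h4 : (1 - 1 / (2 * (N : ℝ))) * (2 / π * ((N : ℝ) + 1 / 2)) =
      2 * ((1 / 2 - 1 / (4 * (N : ℝ))) * (2 / π * ((N : ℝ) + 1 / 2))) := by
    ring
  rw [h4]
  linarith

end LagMin
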